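import Pool.Agent.Lib.MP_f10cd3_gt.T.Bary

/-! Rows TC: triangulations of small mesh. -/

set_option autoImplicit false

namespace F10T


open MPf10cd3 F10G F10S
open scoped ContDiff

section TC1

/-- Row TC1. iteration of `exists_sub`, `isPar_sub` -/
theorem exists_fine {V : Type} [Fintype V] [DecidableEq V] {D : Finset (V × V × V)} {g : ℕ}
    (hD : IsCS D g) {M : Type} [MetricSpace M] {τ : PreTri D M} {J : Type} {q : J → ℂ → M} {L : ℝ}
    {j : V × V × V → J} {P : V × V × V → Fin 3 → ℂ} (hP : IsPar q τ L j P) (n : ℕ) :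
    ∃ (W : Type) (_ : Fintype W) (_ : DecidableEq W) (D' : Finset (W × W × W)) (_ : IsCS D' g)
      (τ' : PreTri D' M) (j' : W × W × W → J) (P' : W × W × W → Fin 3 → ℂ),
        IsPar q τ' (L / 2 ^ n) j' P' := by
  induction n with
  | zero =>
    refine ⟨V, inferInstance, inferInstance, D, hD, τ, j, P, ?_⟩
    rw [pow_zero, div_one]
    exact hP
  | succ n ih =>
    obtain ⟨W, iF, iE, D', hD', τ', j', P', h⟩ := ih
    obtain ⟨τ'', hτ⟩ := exists_sub hD' τ'
    obtain ⟨j'', P'', h'⟩ := isPar_sub hD' hτ h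
    refine ⟨SV D', inferInstance, inferInstance, subD D', isCS_sub hD', τ'', j'', P'', ?_⟩
    have e : L / 2 ^ (n + 1) = L / 2 ^ n / 2 := by
      rw [pow_succ, div_div]
    rw [e]
    exact h'

end TC1

section TC2

private theorem TC2_aff {P : Fin 3 → ℂ} (hP : ∀ i, P i ∈ stdT) {z : ℂ} (hz : z ∈ stdT) :
    aff P z ∈ stdT := by
  obtain ⟨h1, h2, h3⟩ := hz
  obtain ⟨a1, a2, a3⟩ := hP 0
  obtain ⟨b1, b2, b3⟩ := hP 1
  obtain ⟨c1, c2, c3⟩ := hP 2
  have hre : (aff P z).re = (1 - z.re - z.im) * (P 0).re + z.re * (P 1).re + z.im * (P 2).re := by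
    simp [aff]
    ring
  have him : (aff P z).im = (1 - z.re - z.im) * (P 0).im + z.re * (P 1).im + z.im * (P 2).im := by
    simp [aff]
    ring
  have h0 : 0 ≤ 1 - z.re - z.im := by linarith
  refine ⟨?_, ?_, ?_⟩
  · rw [hre]; positivity
  · rw [him]; positivity
  · rw [hre, him]
    nlinarith [mul_le_mul_of_nonneg_left a3 h0, mul_le_mul_of_nonneg_left b3 h1,
      mul_le_mul_of_nonneg_left c3 h2]

private theorem TC2_near {P : Fin 3 → ℂ} {L : ℝ} (hP : ∀ i k, ‖P i - P k‖ ≤ L) {z : ℂ}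
    (hz : z ∈ stdT) : ‖aff P z - aff P 0‖ ≤ L := by
  obtain ⟨h1, h2, h3⟩ := hz
  have hL : 0 ≤ L := (norm_nonneg _).trans (hP 0 0)
  have e : aff P z - aff P 0 = (z.re : ℂ) * (P 1 - P 0) + (z.im : ℂ) * (P 2 - P 0) := by
    simp [aff]
    ring
  rw [e]
  calc ‖(z.re : ℂ) * (P 1 - P 0) + (z.im : ℂ) * (P 2 - P 0)‖
      ≤ ‖(z.re : ℂ) * (P 1 - P 0)‖ + ‖(z.im : ℂ) * (P 2 - P 0)‖ := norm_add_le _ _
    _ = z.re * ‖P 1 - P 0‖ + z.im * ‖P 2 - P 0‖ := by
        rw [norm_mul, norm_mul, Complex.norm_real, Complex.norm_real, Real.norm_of_nonneg h1,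
          Real.norm_of_nonneg h2]
    _ ≤ z.re * L + z.im * L :=
        add_le_add (mul_le_mul_of_nonneg_left (hP 1 0) h1) (mul_le_mul_of_nonneg_left (hP 2 0) h2)
    _ = (z.re + z.im) * L := by ring
    _ ≤ 1 * L := mul_le_mul_of_nonneg_right h3 hL
    _ = L := one_mul L

private theorem TC2_point {W : Type} [Fintype W] [DecidableEq W] {D : Finset (W × W × W)} {g : ℕ}
    (hD : IsCS D g) {M : Type} [MetricSpace M] {τ : PreTri D M} {J : Type} {q : J → ℂ → M} {L : ℝ}
    {j : W × W × W → J} {P : W × W × W → Fin 3 → ℂ} (hP : IsPar q τ L j P) {μ : ℝ}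
    (hq : ∀ i, ∀ z ∈ stdT, ∀ w ∈ stdT, ‖z - w‖ ≤ L → dist (q i z) (q i w) < μ / 2)
    {v : W} {y : M} (hy : 0 < τ.lam y v) :
    ∃ p : M, (∀ w, τ.lam p w = if w = v then 1 else 0) ∧ dist y p < μ / 2 := by
  obtain ⟨hnn, hsum, a, b, c, ht, hs⟩ := τ.bary y
  -- rotate the triangle so that `v` is the first vertex
  obtain ⟨b', c', ht', hs'⟩ : ∃ b' c', (v, b', c') ∈ D ∧
      ∀ w, τ.lam y w ≠ 0 → w = v ∨ w = b' ∨ w = c' := by
    rcases hs v hy.ne' with h | h | h
    · subst h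
      exact ⟨b, c, ht, hs⟩
    · subst h
      refine ⟨c, a, hD.rot _ _ _ ht, fun w hw => ?_⟩
      rcases hs w hw with h | h | h
      · exact Or.inr (Or.inr h)
      · exact Or.inl h
      · exact Or.inr (Or.inl h)
    · subst h
      refine ⟨a, b, hD.rot _ _ _ (hD.rot _ _ _ ht), fun w hw => ?_⟩
      rcases hs w hw with h | h | h
      · exact Or.inr (Or.inl h)
      · exact Or.inr (Or.inr h)
      · exact Or.inl h
  have n1 : v ≠ b' := hD.ne _ _ _ ht'
  have n2 : b' ≠ c' := hD.ne _ _ _ (hD.rot _ _ _ ht')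
  have n3 : c' ≠ v := hD.ne _ _ _ (hD.rot _ _ _ (hD.rot _ _ _ ht'))
  have hsum' : τ.lam y v + τ.lam y b' + τ.lam y c' = 1 := by
    rw [← hsum, ← Finset.sum_subset (Finset.subset_univ ({v, b', c'} : Finset W))]
    · rw [Finset.sum_insert, Finset.sum_insert, Finset.sum_singleton, add_assoc]
      · simpa using n2
      · simp only [Finset.mem_insert, Finset.mem_singleton, not_or]
        exact ⟨n1, fun h => n3 h.symm⟩
    · intro w _ hw
      by_contra hne
      apply hw
      simp only [Finset.mem_insert, Finset.mem_singleton]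
      exact hs' w hne
  have hz : (⟨τ.lam y b', τ.lam y c'⟩ : ℂ) ∈ stdT := by
    refine ⟨hnn b', hnn c', ?_⟩
    have := hnn v
    show τ.lam y b' + τ.lam y c' ≤ 1
    linarith
  have h0 : (0 : ℂ) ∈ stdT := by
    refine ⟨le_refl _, le_refl _, ?_⟩
    simp
  refine ⟨q (j (v, b', c')) (aff (P (v, b', c')) 0), fun w => ?_, ?_⟩
  · rw [hP.lam _ ht' 0 h0 w]
    simp
  · have hyq : y = q (j (v, b', c')) (aff (P (v, b', c')) ⟨τ.lam y b', τ.lam y c'⟩) := by
      apply τ.inj
      funext w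
      rw [hP.lam _ ht' _ hz w]
      by_cases h1 : w = v
      · subst h1
        have e1 : w ≠ b' := n1
        have e2 : w ≠ c' := fun h => n3 h.symm
        simp only [if_true, if_neg e1, if_neg e2]
        linarith
      · by_cases h2 : w = b'
        · subst h2
          simp only [if_true, if_neg h1, if_neg n2]
          ring
        · by_cases h3 : w = c'
          · subst h3
            simp only [if_true, if_neg h1, if_neg h2]
            ring
          · have : τ.lam y w = 0 := by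
              by_contra hne
              rcases hs' w hne with h | h | h
              · exact h1 h
              · exact h2 h
              · exact h3 h
            simp only [if_neg h1, if_neg h2, if_neg h3]
            rw [this]
            ring
    have hd := hq (j (v, b', c')) _ (TC2_aff (hP.mem _ ht') hz) _ (TC2_aff (hP.mem _ ht') h0)
      (TC2_near (hP.edge _ ht') hz)
    rw [← hyq] at hd
    exact hd

/-- Row TC2. every point of the closed triangle `t` is `q (j t) (aff (P t) z)`, `z ∈ stdT` (`inj`);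
the points of a closed triangle and its vertex `v` have distance `< μ / 2` -/
theorem mesh_of_par {W : Type} [Fintype W] [DecidableEq W] {D : Finset (W × W × W)} {g : ℕ}
    (hD : IsCS D g) {M : Type} [MetricSpace M] {τ : PreTri D M} {J : Type} {q : J → ℂ → M} {L : ℝ}
    {j : W × W × W → J} {P : W × W × W → Fin 3 → ℂ} (hP : IsPar q τ L j P) {μ : ℝ}
    (hq : ∀ i, ∀ z ∈ stdT, ∀ w ∈ stdT, ‖z - w‖ ≤ L → dist (q i z) (q i w) < μ / 2)
    {v : W} {y z : M} (hy : 0 < τ.lam y v) (hz : 0 < τ.lam z v) : dist y z < μ := by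
  obtain ⟨p, hp, h1⟩ := TC2_point hD hP hq hy
  obtain ⟨p', hp', h2⟩ := TC2_point hD hP hq hz
  have e : p = p' := by
    apply τ.inj
    funext w
    rw [hp w, hp' w]
  subst e
  calc dist y z ≤ dist y p + dist p z := dist_triangle _ _ _
    _ = dist y p + dist z p := by rw [dist_comm p z]
    _ < μ := by linarith

end TC2

/-- `M` is a closed connected oriented smooth surface of genus `g`: it has a smooth triangulation by
a closed connected oriented combinatorial surface of genus `g` (for some mesh `μ`). -/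
def HasGenus (g : ℕ) (M : Type) [MetricSpace M] [ChartedSpace ℂ M] : Prop :=
  ∃ (μ : ℝ) (V : Type) (_ : Fintype V) (_ : DecidableEq V) (D : Finset (V × V × V))
    (τ : Triang D M μ), IsCS D g ∧ Nonempty (SmoothTri τ)

section TC3

private theorem TC3_compact : IsCompact stdT := by
  have h1 : IsClosed stdT := by
    have e : stdT = {z : ℂ | 0 ≤ z.re} ∩ ({z : ℂ | 0 ≤ z.im} ∩ {z : ℂ | z.re + z.im ≤ 1}) := rfl
    rw [e]
    exact (isClosed_le continuous_const Complex.continuous_re).inter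
      ((isClosed_le continuous_const Complex.continuous_im).inter
        (isClosed_le (Complex.continuous_re.add Complex.continuous_im) continuous_const))
  refine Metric.isCompact_of_isClosed_isBounded h1 ?_
  rw [Metric.isBounded_iff_subset_closedBall 0]
  refine ⟨2, fun z hz => ?_⟩
  rw [mem_closedBall_zero_iff]
  obtain ⟨a, b, c⟩ := hz
  have h2 := Complex.norm_le_abs_re_add_abs_im z
  rw [abs_of_nonneg a, abs_of_nonneg b] at h2
  linarith

private theorem TC3_aff_mem {P : Fin 3 → ℂ} (hP : ∀ i, P i ∈ stdT) {z : ℂ} (hz : z ∈ stdT) :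
    aff P z ∈ stdT := by
  obtain ⟨a, b, c⟩ := hz
  obtain ⟨a0, b0, c0⟩ := hP 0
  obtain ⟨a1, b1, c1⟩ := hP 1
  obtain ⟨a2, b2, c2⟩ := hP 2
  have hre : (aff P z).re = (P 0).re + z.re * ((P 1).re - (P 0).re) +
      z.im * ((P 2).re - (P 0).re) := by simp [aff]
  have him : (aff P z).im = (P 0).im + z.re * ((P 1).im - (P 0).im) +
      z.im * ((P 2).im - (P 0).im) := by simp [aff]
  have hc : 0 ≤ 1 - z.re - z.im := by linarith
  refine ⟨?_, ?_, ?_⟩
  · rw [hre]
    nlinarith [mul_nonneg hc a0, mul_nonneg a a1, mul_nonneg b a2]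
  · rw [him]
    nlinarith [mul_nonneg hc b0, mul_nonneg a b1, mul_nonneg b b2]
  · rw [hre, him]
    nlinarith [mul_le_mul_of_nonneg_left c0 hc, mul_le_mul_of_nonneg_left c1 a,
      mul_le_mul_of_nonneg_left c2 b]

private theorem TC3_aff_deriv (P : Fin 3 → ℂ) (z : ℂ) :
    HasFDerivAt (aff P) ((Complex.ofRealCLM.comp Complex.reCLM).smulRight (P 1 - P 0) +
      (Complex.ofRealCLM.comp Complex.imCLM).smulRight (P 2 - P 0) : ℂ →L[ℝ] ℂ) z := by
  have h1 := ((Complex.ofRealCLM.comp Complex.reCLM).smulRight (P 1 - P 0) +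
      (Complex.ofRealCLM.comp Complex.imCLM).smulRight (P 2 - P 0) : ℂ →L[ℝ] ℂ).hasFDerivAt (x := z)
  have h2 := h1.const_add (P 0)
  refine h2.congr_of_eventuallyEq (Filter.Eventually.of_forall fun w => ?_)
  show P 0 + (w.re : ℂ) * (P 1 - P 0) + (w.im : ℂ) * (P 2 - P 0) =
    P 0 + ((w.re : ℂ) • (P 1 - P 0) + (w.im : ℂ) • (P 2 - P 0))
  rw [smul_eq_mul, smul_eq_mul]
  ring

private theorem TC3_aff_smooth (P : Fin 3 → ℂ) : ContDiff ℝ ∞ (aff P) := by
  have h1 := ((Complex.ofRealCLM.comp Complex.reCLM).smulRight (P 1 - P 0) +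
      (Complex.ofRealCLM.comp Complex.imCLM).smulRight (P 2 - P 0) : ℂ →L[ℝ] ℂ).contDiff (n := ∞)
  have h2 := (contDiff_const (c := P 0)).add h1
  have e : aff P = fun w => P 0 + ((Complex.ofRealCLM.comp Complex.reCLM).smulRight (P 1 - P 0) +
      (Complex.ofRealCLM.comp Complex.imCLM).smulRight (P 2 - P 0) : ℂ →L[ℝ] ℂ) w := by
    funext w
    show P 0 + (w.re : ℂ) * (P 1 - P 0) + (w.im : ℂ) * (P 2 - P 0) =
      P 0 + ((w.re : ℂ) • (P 1 - P 0) + (w.im : ℂ) • (P 2 - P 0))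
    rw [smul_eq_mul, smul_eq_mul]
    ring
  rw [e]
  exact h2

private theorem TC3_orient (F : ℂ →L[ℝ] ℂ) (u v : ℂ)
    (h : 0 < ((starRingEnd ℂ) (F 1) * F Complex.I).im)
    (huv : 0 < ((starRingEnd ℂ) u * v).im) : 0 < ((starRingEnd ℂ) (F u) * F v).im := by
  have hF : ∀ w : ℂ, F w = (w.re : ℂ) * F 1 + (w.im : ℂ) * F Complex.I := by
    intro w
    have h1 : w = w.re • (1 : ℂ) + w.im • Complex.I := by
      apply Complex.ext <;> simp
    conv_lhs => rw [h1]
    rw [map_add, map_smul, map_smul]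
    simp
  have h2 : ((starRingEnd ℂ) (F u) * F v).im =
      ((starRingEnd ℂ) u * v).im * ((starRingEnd ℂ) (F 1) * F Complex.I).im := by
    rw [hF u, hF v]
    simp
    ring
  rw [h2]
  exact mul_pos huv h

/-- Row TC3. `J = {t // t ∈ D}`, `q t z = (ch t).symm (s t z)`, uniformly continuous on the compact
set `stdT`; `P t` = the vertices `0, 1, i`, `L = 2`; new `s' t z = s (j t) (aff (P t) z)` -/
theorem smooth_of_genus {g : ℕ} {M : Type} [MetricSpace M] [CompactSpace M] [ChartedSpace ℂ M]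
    (h : HasGenus g M) : IsSmoothSurface g M := by
  classical
  obtain ⟨μ0, V, iV, dV, D, τ, hD, ⟨σ⟩⟩ := h
  intro μ hμ
  rcases D.eq_empty_or_nonempty with hE | ⟨t0, ht0⟩
  · have hM : M → False := by
      intro y
      have hV : ∀ v : V, False := by
        intro v
        obtain ⟨b, c, hbc⟩ := hD.vert v
        rw [hE] at hbc
        exact absurd hbc (Finset.notMem_empty _)
      have h1 := τ.sum y
      have h2 : (Finset.univ : Finset V) = ∅ := Finset.univ_eq_empty_iff.2 ⟨hV⟩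
      rw [h2, Finset.sum_empty] at h1
      exact zero_ne_one h1
    refine ⟨V, iV, dV, D, ⟨τ.lam, τ.cont, τ.nonneg, τ.sum, τ.supp, τ.surj, τ.inj,
      fun v y z _ _ => (hM y).elim⟩, hD, ⟨⟨σ.ch, σ.s, σ.hch, σ.smooth, σ.mem, σ.lam, σ.orient⟩⟩⟩
  · let τ0 : PreTri D M := ⟨τ.lam, τ.cont, fun y => ⟨τ.nonneg y, τ.sum y, τ.supp y⟩,
      fun w hw => τ.surj w hw.1 hw.2.1 hw.2.2, τ.inj⟩
    let q : {t // t ∈ D} → ℂ → M := fun t z => (σ.ch t.1).symm (σ.s t.1 z)
    let j : V × V × V → {t // t ∈ D} := fun t => if ht : t ∈ D then ⟨t, ht⟩ else ⟨t0, ht0⟩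
    let P : V × V × V → Fin 3 → ℂ := fun _ => ![0, 1, Complex.I]
    have haff : ∀ t z, aff (P t) z = z := by
      intro t z
      show (0 : ℂ) + z.re * (1 - 0) + z.im * (Complex.I - 0) = z
      rw [zero_add, sub_zero, sub_zero, mul_one]
      exact Complex.re_add_im z
    have hmemP : ∀ t i, P t i ∈ stdT := by
      intro t i
      fin_cases i
      · show (0 : ℂ) ∈ stdT
        refine ⟨?_, ?_, ?_⟩ <;> simp
      · show (1 : ℂ) ∈ stdT
        refine ⟨?_, ?_, ?_⟩ <;> simp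
      · show Complex.I ∈ stdT
        refine ⟨?_, ?_, ?_⟩ <;> simp
    have hnormP : ∀ t i, ‖P t i‖ ≤ 1 := by
      intro t i
      fin_cases i
      · show ‖(0 : ℂ)‖ ≤ 1
        simp
      · show ‖(1 : ℂ)‖ ≤ 1
        simp
      · show ‖Complex.I‖ ≤ 1
        simp
    have hP : IsPar q τ0 2 j P := by
      refine ⟨fun t _ i => hmemP t i, fun t _ i k => ?_, fun t _ => ?_, fun t ht z hz v => ?_⟩
      · have h1 := norm_sub_le (P t i) (P t k)
        have h2 := hnormP t i
        have h3 := hnormP t k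
        linarith
      · show 0 < ((starRingEnd ℂ) ((1 : ℂ) - 0) * (Complex.I - 0)).im
        simp
      · rw [haff t z]
        have hj : j t = ⟨t, ht⟩ := dif_pos ht
        rw [hj]
        exact σ.lam t ht z hz v
    -- uniform continuity
    have hunif : ∀ t : {t // t ∈ D}, ∃ δ : ℝ, 0 < δ ∧ ∀ z ∈ stdT, ∀ w ∈ stdT, ‖z - w‖ < δ →
        dist (q t z) (q t w) < μ / 2 := by
      intro t
      have hcont : ContinuousOn (q t) stdT := by
        refine (σ.ch t.1).continuousOn_symm.comp (σ.smooth t.1 t.2).continuous.continuousOn ?_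
        intro z hz
        exact σ.mem t.1 t.2 z hz
      have huc := TC3_compact.uniformContinuousOn_of_continuous hcont
      rw [Metric.uniformContinuousOn_iff] at huc
      obtain ⟨δ, hδ, h1⟩ := huc (μ / 2) (by linarith)
      exact ⟨δ, hδ, fun z hz w hw hzw => h1 z hz w hw (by rw [dist_eq_norm]; exact hzw)⟩
    choose δ hδ hδ' using hunif
    obtain ⟨δ0, hδ0, hδ0'⟩ : ∃ δ0 : ℝ, 0 < δ0 ∧ ∀ t, δ0 ≤ δ t := by
      have : Nonempty {t // t ∈ D} := ⟨⟨t0, ht0⟩⟩
      obtain ⟨t1, ht1⟩ := Finite.exists_min δ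
      exact ⟨δ t1, hδ t1, ht1⟩
    obtain ⟨n, hn⟩ := exists_pow_lt_of_lt_one (show (0 : ℝ) < δ0 / 2 by linarith)
      (show (1 / 2 : ℝ) < 1 by norm_num)
    have hL : (2 : ℝ) / 2 ^ n < δ0 := by
      have h1 : (2 : ℝ) / 2 ^ n = 2 * (1 / 2) ^ n := by
        rw [one_div, inv_pow, div_eq_mul_inv]
      rw [h1]
      linarith
    obtain ⟨W, iW, dW, D', hD', τ', j', P', hP'⟩ := exists_fine hD hP n
    have hq : ∀ i, ∀ z ∈ stdT, ∀ w ∈ stdT, ‖z - w‖ ≤ 2 / 2 ^ n →
        dist (q i z) (q i w) < μ / 2 := fun i z hz w hw hzw =>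
      hδ' i z hz w hw (lt_of_le_of_lt hzw (lt_of_lt_of_le hL (hδ0' i)))
    refine ⟨W, iW, dW, D', ⟨τ'.lam, τ'.cont, fun y => (τ'.bary y).1, fun y => (τ'.bary y).2.1,
      fun y => (τ'.bary y).2.2, fun w h1 h2 h3 => τ'.surj w ⟨h1, h2, h3⟩, τ'.inj,
      fun v y z hy hz => mesh_of_par hD' hP' hq hy hz⟩, hD', ⟨⟨fun t => σ.ch (j' t).1,
      fun t z => σ.s (j' t).1 (aff (P' t) z), fun t _ => σ.hch _ (j' t).2, fun t _ => ?_,
      fun t ht z hz => ?_, fun t ht z hz v => ?_, fun t ht z hz => ?_⟩⟩⟩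
    · exact (σ.smooth _ (j' t).2).comp (TC3_aff_smooth (P' t))
    · exact σ.mem _ (j' t).2 _ (TC3_aff_mem (hP'.mem t ht) hz)
    · exact hP'.lam t ht z hz v
    · have h1 : HasFDerivAt (σ.s (j' t).1) (fderiv ℝ (σ.s (j' t).1) (aff (P' t) z))
          (aff (P' t) z) :=
        ((σ.smooth _ (j' t).2).differentiable (by simp)).differentiableAt.hasFDerivAt
      have h2 := h1.comp z (TC3_aff_deriv (P' t) z)
      have h3 : fderiv ℝ (fun z => σ.s (j' t).1 (aff (P' t) z)) z = _ := h2.fderiv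
      have h4 := TC3_orient (fderiv ℝ (σ.s (j' t).1) (aff (P' t) z)) _ _
        (σ.orient _ (j' t).2 _ (TC3_aff_mem (hP'.mem t ht) hz)) (hP'.pos t ht)
      have e1 : fderiv ℝ (fun z => σ.s (j' t).1 (aff (P' t) z)) z 1 =
          fderiv ℝ (σ.s (j' t).1) (aff (P' t) z) (P' t 1 - P' t 0) := by
        rw [h3]
        simp
      have e2 : fderiv ℝ (fun z => σ.s (j' t).1 (aff (P' t) z)) z Complex.I =
          fderiv ℝ (σ.s (j' t).1) (aff (P' t) z) (P' t 2 - P' t 0) := by
        rw [h3]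
        simp
      rw [e1, e2]
      exact h4

end TC3

end F10T
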