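import Pool.Agent.Lib.MP_f10cd3_gt.T.Comb

/-! Rows TB: barycentric coordinates in the subdivision. -/

set_option autoImplicit false

namespace F10T


open MPf10cd3 F10G F10S

variable {V : Type} [Fintype V] [DecidableEq V] {D : Finset (V × V × V)} {g : ℕ}

section TB1

private theorem TB1_num {a b c : ℝ} (ha : 0 ≤ a) (hb : 0 ≤ b) (hc : 0 ≤ c) (h : a + b + c = 1) :
    max 0 (2 * a - 1) + (max 0 (2 * b - 1) + (max 0 (2 * c - 1) +
      (max 0 (min (min (2 * a) (2 * b)) (2 * (a + b) - 1)) +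
        (max 0 (min (min (2 * b) (2 * c)) (2 * (b + c) - 1)) +
          max 0 (min (min (2 * c) (2 * a)) (2 * (c + a) - 1)))))) = 1 := by
  have key : ∀ p q r : ℝ, 0 ≤ p → 0 ≤ q → 0 ≤ r → p + q + r = 1 → 1 / 2 ≤ p →
      max 0 (2 * p - 1) = 2 * p - 1 ∧ max 0 (2 * q - 1) = 0 ∧ max 0 (2 * r - 1) = 0 ∧
      max 0 (min (min (2 * p) (2 * q)) (2 * (p + q) - 1)) = 2 * q ∧
      max 0 (min (min (2 * q) (2 * r)) (2 * (q + r) - 1)) = 0 ∧
      max 0 (min (min (2 * r) (2 * p)) (2 * (r + p) - 1)) = 2 * r := by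
    intro p q r hp hq hr hs h2
    refine ⟨max_eq_right (by linarith), max_eq_left (by linarith), max_eq_left (by linarith),
      ?_, ?_, ?_⟩
    · rw [min_eq_right (a := 2 * p) (by linarith), min_eq_left (by linarith),
        max_eq_right (by linarith)]
    · exact max_eq_left ((min_le_right _ _).trans (by linarith))
    · rw [min_eq_left (a := 2 * r) (by linarith), min_eq_left (by linarith),
        max_eq_right (by linarith)]
  by_cases h1 : 1 / 2 ≤ a
  · obtain ⟨k1, k2, k3, k4, k5, k6⟩ := key a b c ha hb hc h h1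
    rw [k1, k2, k3, k4, k5, k6]
    linarith
  by_cases h2 : 1 / 2 ≤ b
  · obtain ⟨k1, k2, k3, k4, k5, k6⟩ := key b c a hb hc ha (by linarith) h2
    rw [k1, k2, k3, k4, k5, k6]
    linarith
  by_cases h3 : 1 / 2 ≤ c
  · obtain ⟨k1, k2, k3, k4, k5, k6⟩ := key c a b hc ha hb (by linarith) h3
    rw [k1, k2, k3, k4, k5, k6]
    linarith
  rw [not_le] at h1 h2 h3
  have mid : ∀ p q r : ℝ, p + q + r = 1 → p < 1 / 2 → q < 1 / 2 → r < 1 / 2 →
      max 0 (min (min (2 * p) (2 * q)) (2 * (p + q) - 1)) = 1 - 2 * r := by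
    intro p q r hs hp hq hr
    rw [min_eq_right (b := 2 * (p + q) - 1) (le_min (by linarith) (by linarith)),
      max_eq_right (by linarith)]
    linarith
  rw [mid a b c h h1 h2 h3, mid b c a (by linarith) h2 h3 h1, mid c a b (by linarith) h3 h1 h2,
    max_eq_left (by linarith : 2 * a - 1 ≤ 0), max_eq_left (by linarith : 2 * b - 1 ≤ 0),
    max_eq_left (by linarith : 2 * c - 1 ≤ 0)]
  linarith

omit [Fintype V] [DecidableEq V] in
private theorem TB1_ext {p q : SV D} : p = q ↔ p.1 = q.1 := Subtype.ext_iff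

private theorem TB1_zero {x : V → ℝ} {u v : V} (h : u ≠ v) (h0 : x u = 0) :
    lamS x s(u, v) = 0 := by
  rw [lamS_edge x h, h0]
  exact max_eq_left ((min_le_left _ _).trans ((min_le_left _ _).trans (by norm_num)))

/-- Row TB1. sum over the six vertices `aa, bb, cc, ab, bc, ca` -/
theorem lamS_sum (hD : IsCS D g) {x : V → ℝ} (hx : IsBary D x) :
    ∑ v : SV D, lamS x v.1 = 1 := by
  obtain ⟨h0, hs, a, b, c, hm, hsupp⟩ := hx
  have hab : a ≠ b := hD.ne a b c hm
  have hm2 := hD.rot a b c hm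
  have hm3 := hD.rot b c a hm2
  have hbc : b ≠ c := hD.ne b c a hm2
  have hca : c ≠ a := hD.ne c a b hm3
  have hx0 : ∀ v, v ≠ a → v ≠ b → v ≠ c → x v = 0 := by
    intro v h1 h2 h3
    by_contra h4
    rcases hsupp v h4 with h | h | h
    · exact h1 h
    · exact h2 h
    · exact h3 h
  have hsum : x a + x b + x c = 1 := by
    rw [← hs, ← Finset.sum_subset (Finset.subset_univ ({a, b, c} : Finset V))]
    · rw [Finset.sum_insert (by simp [hab, hca.symm]), Finset.sum_insert (by simp [hbc]),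
        Finset.sum_singleton]
      ring
    · intro v _ hv
      simp only [Finset.mem_insert, Finset.mem_singleton, not_or] at hv
      exact hx0 v hv.1 hv.2.1 hv.2.2
  obtain ⟨p1, hp1⟩ : ∃ p : SV D, p.1 = s(a, a) := ⟨⟨s(a, a), Or.inl ⟨a, rfl⟩⟩, rfl⟩
  obtain ⟨p2, hp2⟩ : ∃ p : SV D, p.1 = s(b, b) := ⟨⟨s(b, b), Or.inl ⟨b, rfl⟩⟩, rfl⟩
  obtain ⟨p3, hp3⟩ : ∃ p : SV D, p.1 = s(c, c) := ⟨⟨s(c, c), Or.inl ⟨c, rfl⟩⟩, rfl⟩
  obtain ⟨p4, hp4⟩ : ∃ p : SV D, p.1 = s(a, b) := ⟨⟨s(a, b), Or.inr ⟨a, b, c, hm, rfl⟩⟩, rfl⟩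
  obtain ⟨p5, hp5⟩ : ∃ p : SV D, p.1 = s(b, c) := ⟨⟨s(b, c), Or.inr ⟨b, c, a, hm2, rfl⟩⟩, rfl⟩
  obtain ⟨p6, hp6⟩ : ∃ p : SV D, p.1 = s(c, a) := ⟨⟨s(c, a), Or.inr ⟨c, a, b, hm3, rfl⟩⟩, rfl⟩
  have hout : ∀ v : SV D, v ∉ ({p1, p2, p3, p4, p5, p6} : Finset (SV D)) → lamS x v.1 = 0 := by
    intro v hv
    simp only [Finset.mem_insert, Finset.mem_singleton, not_or, TB1_ext] at hv
    obtain ⟨v1, v2, v3, v4, v5, v6⟩ := hv
    rw [hp1] at v1
    rw [hp2] at v2
    rw [hp3] at v3
    rw [hp4] at v4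
    rw [hp5] at v5
    rw [hp6] at v6
    rcases v.2 with ⟨u, hu⟩ | ⟨u, w, t, hut, hu⟩
    · rw [hu] at v1 v2 v3 ⊢
      rw [lamS_diag, hx0 u (fun h => v1 (by rw [h])) (fun h => v2 (by rw [h]))
        (fun h => v3 (by rw [h]))]
      norm_num
    · have huw : u ≠ w := hD.ne u w t hut
      rw [hu] at v4 v5 v6 ⊢
      by_cases hxu : x u = 0
      · exact TB1_zero huw hxu
      by_cases hxw : x w = 0
      · rw [Sym2.eq_swap]
        exact TB1_zero huw.symm hxw
      exfalso
      rcases hsupp u hxu with h1 | h1 | h1 <;> rcases hsupp w hxw with h2 | h2 | h2 <;>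
        subst h1 <;> subst h2 <;> first
        | exact huw rfl
        | exact v4 rfl
        | exact v4 Sym2.eq_swap
        | exact v5 rfl
        | exact v5 Sym2.eq_swap
        | exact v6 rfl
        | exact v6 Sym2.eq_swap
  rw [← Finset.sum_subset (Finset.subset_univ ({p1, p2, p3, p4, p5, p6} : Finset (SV D)))
    (fun v _ hv => hout v hv)]
  rw [Finset.sum_insert, Finset.sum_insert, Finset.sum_insert, Finset.sum_insert,
    Finset.sum_insert, Finset.sum_singleton]
  · rw [hp1, hp2, hp3, hp4, hp5, hp6, lamS_diag, lamS_diag, lamS_diag, lamS_edge x hab, lamS_edge x hbc, lamS_edge x hca]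
    exact TB1_num (h0 a) (h0 b) (h0 c) hsum
  all_goals
    simp only [Finset.mem_insert, Finset.mem_singleton, not_or, TB1_ext, hp1, hp2, hp3, hp4, hp5,
      hp6, Sym2.eq_iff]
    simp only [hab, hab.symm, hbc, hbc.symm, hca, hca.symm, and_self, and_true,
      and_false, not_false_iff]

end TB1

section TB2

private theorem TB2_two {x : V → ℝ} (h0 : ∀ v, 0 ≤ x v) (h1 : ∑ v, x v = 1) {a b : V}
    (hab : a ≠ b) : x a + x b ≤ 1 := by
  have h := Finset.sum_le_univ_sum_of_nonneg (s := {a, b}) h0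
  rw [Finset.sum_pair hab, h1] at h
  exact h

private theorem TB2_three {x : V → ℝ} (h0 : ∀ v, 0 ≤ x v) (h1 : ∑ v, x v = 1) {a b c : V}
    (hab : a ≠ b) (hac : a ≠ c) (hbc : b ≠ c) : x a + (x b + x c) ≤ 1 := by
  have h := Finset.sum_le_univ_sum_of_nonneg (s := {a, b, c}) h0
  rw [Finset.sum_insert (by simp [hab, hac]), Finset.sum_pair hbc, h1] at h
  exact h

private theorem TB2_edge {x : V → ℝ} {u w : V} (huw : u ≠ w)
    (h : lamS x s(u, w) ≠ 0) : x u ≠ 0 ∧ x w ≠ 0 ∧ 1 / 2 < x u + x w := by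
  rw [lamS_edge x huw] at h
  have h2 : 0 < min (min (2 * x u) (2 * x w)) (2 * (x u + x w) - 1) := by
    by_contra hcon
    exact h (max_eq_left (not_lt.1 hcon))
  rw [lt_min_iff, lt_min_iff] at h2
  obtain ⟨⟨h3, h4⟩, h5⟩ := h2
  refine ⟨by linarith [h3] |> fun (h : 0 < x u) => h.ne', by
    linarith [h4] |> fun (h : 0 < x w) => h.ne', by linarith⟩

private theorem TB2_diag {x : V → ℝ} {u : V}
    (h : lamS x s(u, u) ≠ 0) : 1 / 2 < x u := by
  rw [lamS_diag x u] at h
  by_contra hcon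
  exact h (max_eq_left (by linarith [not_lt.1 hcon]))

private theorem TB2_vertex (hD : IsCS D g) {x : V → ℝ} (h0 : ∀ v, 0 ≤ x v) (h1 : ∑ v, x v = 1)
    {a b c : V} (h : (a, b, c) ∈ D) (hs : ∀ v, x v ≠ 0 → v = a ∨ v = b ∨ v = c)
    (ha : 1 / 2 ≤ x a) :
    ∃ p q r : SV D, (p, q, r) ∈ subD D ∧ ∀ v : SV D, lamS x v.1 ≠ 0 → v = p ∨ v = q ∨ v = r := by
  have h' := hD.rot _ _ _ h
  have h'' := hD.rot _ _ _ h'
  have hab : a ≠ b := hD.ne _ _ _ h
  have hbc : b ≠ c := hD.ne _ _ _ h'
  have hca : c ≠ a := hD.ne _ _ _ h''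
  have hbc2 : x b + x c ≤ 1 / 2 := by
    have := TB2_three h0 h1 hab hca.symm hbc
    linarith
  refine ⟨⟨s(a, a), Or.inl ⟨a, rfl⟩⟩, ⟨s(a, b), Or.inr ⟨a, b, c, h, rfl⟩⟩,
    ⟨s(a, c), Or.inr ⟨c, a, b, h'', Sym2.eq_swap⟩⟩,
    mem_subD.2 ⟨a, b, c, h, Or.inl ⟨rfl, rfl, rfl⟩⟩, ?_⟩
  suffices key : ∀ e : Sym2 V, lamS x e ≠ 0 → e = s(a, a) ∨ e = s(a, b) ∨ e = s(a, c) by
    intro v hv
    rcases key v.1 hv with h | h | h
    · exact Or.inl (Subtype.ext h)
    · exact Or.inr (Or.inl (Subtype.ext h))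
    · exact Or.inr (Or.inr (Subtype.ext h))
  intro e
  induction e using Sym2.ind with
  | _ u w =>
    intro hne'
    by_cases huw : u = w
    · subst huw
      have h3 := TB2_diag hne'
      have h4 : u = a := by
        by_contra hcon
        have := TB2_two h0 h1 hcon
        linarith
      left; rw [h4]
    · obtain ⟨h3, h4, h5⟩ := TB2_edge huw hne'
      rcases hs u h3 with rfl | rfl | rfl
      · rcases hs w h4 with rfl | rfl | rfl
        · exact absurd rfl huw
        · right; left; rfl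
        · right; right; rfl
      · rcases hs w h4 with rfl | rfl | rfl
        · right; left; exact Sym2.eq_swap
        · exact absurd rfl huw
        · linarith
      · rcases hs w h4 with rfl | rfl | rfl
        · right; right; exact Sym2.eq_swap
        · linarith
        · exact absurd rfl huw

/-- Row TB2. the triangle at `a` if `1/2 ≤ x a`, the triangle in the middle if all are `≤ 1/2` -/
theorem lamS_supp (hD : IsCS D g) {x : V → ℝ} (hx : IsBary D x) :
    ∃ p q r : SV D, (p, q, r) ∈ subD D ∧ ∀ v : SV D, lamS x v.1 ≠ 0 → v = p ∨ v = q ∨ v = r := by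
  obtain ⟨h0, h1, a, b, c, h, hs⟩ := hx
  have h' := hD.rot _ _ _ h
  have h'' := hD.rot _ _ _ h'
  by_cases ha : 1 / 2 ≤ x a
  · exact TB2_vertex hD h0 h1 h hs ha
  by_cases hb : 1 / 2 ≤ x b
  · exact TB2_vertex hD h0 h1 h' (fun v hv => by rcases hs v hv with h | h | h <;> simp [h]) hb
  by_cases hc : 1 / 2 ≤ x c
  · exact TB2_vertex hD h0 h1 h'' (fun v hv => by rcases hs v hv with h | h | h <;> simp [h]) hc
  refine ⟨⟨s(a, b), Or.inr ⟨a, b, c, h, rfl⟩⟩, ⟨s(b, c), Or.inr ⟨b, c, a, h', rfl⟩⟩,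
    ⟨s(c, a), Or.inr ⟨c, a, b, h'', rfl⟩⟩,
    mem_subD.2 ⟨a, b, c, h, Or.inr (Or.inr (Or.inr ⟨rfl, rfl, rfl⟩))⟩, ?_⟩
  suffices key : ∀ e : Sym2 V, lamS x e ≠ 0 → e = s(a, b) ∨ e = s(b, c) ∨ e = s(c, a) by
    intro v hv
    rcases key v.1 hv with h | h | h
    · exact Or.inl (Subtype.ext h)
    · exact Or.inr (Or.inl (Subtype.ext h))
    · exact Or.inr (Or.inr (Subtype.ext h))
  intro e
  induction e using Sym2.ind with
  | _ u w =>
    intro hne'
    by_cases huw : u = w
    · subst huw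
      have h3 := TB2_diag hne'
      have h4 : x u ≠ 0 := by
        intro h
        rw [h] at h3
        linarith
      exfalso
      rcases hs u h4 with rfl | rfl | rfl
      · exact ha h3.le
      · exact hb h3.le
      · exact hc h3.le
    · obtain ⟨h3, h4, h5⟩ := TB2_edge huw hne'
      rcases hs u h3 with rfl | rfl | rfl
      · rcases hs w h4 with rfl | rfl | rfl
        · exact absurd rfl huw
        · left; rfl
        · right; right; exact Sym2.eq_swap
      · rcases hs w h4 with rfl | rfl | rfl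
        · left; exact Sym2.eq_swap
        · exact absurd rfl huw
        · right; left; rfl
      · rcases hs w h4 with rfl | rfl | rfl
        · right; right; rfl
        · right; left; exact Sym2.eq_swap
        · exact absurd rfl huw

end TB2

section TB3

private theorem TB3_edge_zero {x : V → ℝ} (h0 : ∀ v, 0 ≤ x v) {a b : V} (hab : a ≠ b) (h : x a = 0 ∨ x b = 0) :
    lamS x s(a, b) = 0 := by
  rw [lamS_edge x hab]
  refine max_eq_left ?_
  refine (min_le_left _ _).trans ?_
  rcases h with h | h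
  · refine (min_le_left _ _).trans ?_
    rw [h, mul_zero]
  · refine (min_le_right _ _).trans ?_
    rw [h, mul_zero]

private theorem TB3_num {u v w : ℝ} (hu : 0 ≤ u) (hv : 0 ≤ v) (hw : 0 ≤ w) (h : u + v + w = 1) :
    u = max 0 (2 * u - 1) + (1 / 2) * (max 0 (min (min (2 * u) (2 * v)) (2 * (u + v) - 1)) +
      max 0 (min (min (2 * u) (2 * w)) (2 * (u + w) - 1))) := by
  rcases le_total (1 / 2) u with h1 | h1
  · have e1 : max 0 (2 * u - 1) = 2 * u - 1 := max_eq_right (by linarith)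
    have e2 : max 0 (min (min (2 * u) (2 * v)) (2 * (u + v) - 1)) = 2 * v := by
      rw [min_eq_right (show 2 * v ≤ 2 * u by linarith), min_eq_left (show 2 * v ≤ 2 * (u + v) - 1 by linarith)]
      exact max_eq_right (by linarith)
    have e3 : max 0 (min (min (2 * u) (2 * w)) (2 * (u + w) - 1)) = 2 * w := by
      rw [min_eq_right (show 2 * w ≤ 2 * u by linarith), min_eq_left (show 2 * w ≤ 2 * (u + w) - 1 by linarith)]
      exact max_eq_right (by linarith)
    rw [e1, e2, e3]
    linarith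
  · have e1 : max 0 (2 * u - 1) = 0 := max_eq_left (by linarith)
    rcases le_total (1 / 2) v with h2 | h2
    · have e2 : max 0 (min (min (2 * u) (2 * v)) (2 * (u + v) - 1)) = 2 * u := by
        rw [min_eq_left (show 2 * u ≤ 2 * v by linarith), min_eq_left (show 2 * u ≤ 2 * (u + v) - 1 by linarith)]
        exact max_eq_right (by linarith)
      have e3 : max 0 (min (min (2 * u) (2 * w)) (2 * (u + w) - 1)) = 0 :=
        max_eq_left ((min_le_right _ _).trans (by linarith))
      rw [e1, e2, e3]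
      linarith
    · rcases le_total (1 / 2) w with h3 | h3
      · have e3 : max 0 (min (min (2 * u) (2 * w)) (2 * (u + w) - 1)) = 2 * u := by
          rw [min_eq_left (show 2 * u ≤ 2 * w by linarith), min_eq_left (show 2 * u ≤ 2 * (u + w) - 1 by linarith)]
          exact max_eq_right (by linarith)
        have e2 : max 0 (min (min (2 * u) (2 * v)) (2 * (u + v) - 1)) = 0 :=
          max_eq_left ((min_le_right _ _).trans (by linarith))
        rw [e1, e2, e3]
        linarith
      · have e2 : max 0 (min (min (2 * u) (2 * v)) (2 * (u + v) - 1)) = 2 * (u + v) - 1 := by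
          rw [min_eq_right (show 2 * (u + v) - 1 ≤ min (2 * u) (2 * v) from
            le_min (by linarith) (by linarith))]
          exact max_eq_right (by linarith)
        have e3 : max 0 (min (min (2 * u) (2 * w)) (2 * (u + w) - 1)) = 2 * (u + w) - 1 := by
          rw [min_eq_right (show 2 * (u + w) - 1 ≤ min (2 * u) (2 * w) from
            le_min (by linarith) (by linarith))]
          exact max_eq_right (by linarith)
        rw [e1, e2, e3]
        linarith

private theorem TB3_at {x : V → ℝ} (h0 : ∀ v, 0 ≤ x v) (h1 : ∑ v, x v = 1) {p q r : V} (hpq : p ≠ q)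
    (hpr : p ≠ r) (hqr : q ≠ r) (hs : ∀ v, x v ≠ 0 → v = p ∨ v = q ∨ v = r) :
    x p = lamS x s(p, p) + (1 / 2) * ∑ b ∈ Finset.univ.erase p, lamS x s(p, b) := by
  have hsum : ∀ F : V → ℝ, (∀ v, v ≠ p → v ≠ q → v ≠ r → F v = 0) →
      ∑ b ∈ Finset.univ.erase p, F b = F q + F r := by
    intro F hF
    have hsub : ({q, r} : Finset V) ⊆ Finset.univ.erase p := by
      intro v hv
      rw [Finset.mem_insert, Finset.mem_singleton] at hv
      rw [Finset.mem_erase]
      refine ⟨?_, Finset.mem_univ _⟩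
      rcases hv with rfl | rfl
      · exact hpq.symm
      · exact hpr.symm
    rw [← Finset.sum_subset hsub, Finset.sum_pair hqr]
    intro v hv hv'
    rw [Finset.mem_erase] at hv
    rw [Finset.mem_insert, Finset.mem_singleton, not_or] at hv'
    exact hF v hv.1 hv'.1 hv'.2
  have hz : ∀ v, v ≠ p → v ≠ q → v ≠ r → x v = 0 := by
    intro v hp hq hr
    by_contra hne
    rcases hs v hne with h | h | h
    · exact hp h
    · exact hq h
    · exact hr h
  have h2 : x p + x q + x r = 1 := by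
    rw [← h1, ← Finset.add_sum_erase Finset.univ x (Finset.mem_univ p), hsum x hz, add_assoc]
  rw [hsum (fun b => lamS x s(p, b)) (fun v hp hq hr =>
    TB3_edge_zero h0 (Ne.symm hp) (Or.inr (hz v hp hq hr))), lamS_diag, lamS_edge x hpq, lamS_edge x hpr]
  exact TB3_num (h0 p) (h0 q) (h0 r) h2

private theorem TB3_formula (hD : IsCS D g) {x : V → ℝ} (hx : IsBary D x) (a : V) :
    x a = lamS x s(a, a) + (1 / 2) * ∑ b ∈ Finset.univ.erase a, lamS x s(a, b) := by
  obtain ⟨h0, h1, p, q, r, hpqr, hs⟩ := hx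
  have hpq := hD.ne _ _ _ hpqr
  have hqrp := hD.rot _ _ _ hpqr
  have hqr := hD.ne _ _ _ hqrp
  have hrpq := hD.rot _ _ _ hqrp
  have hrp := hD.ne _ _ _ hrpq
  by_cases hap : a = p
  · subst hap
    exact TB3_at h0 h1 hpq hrp.symm hqr hs
  by_cases haq : a = q
  · subst haq
    exact TB3_at h0 h1 hpq.symm hqr hrp.symm (fun v hv => by
      rcases hs v hv with h | h | h
      · exact Or.inr (Or.inl h)
      · exact Or.inl h
      · exact Or.inr (Or.inr h))
  by_cases har : a = r
  · subst har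
    exact TB3_at h0 h1 hrp hqr.symm hpq (fun v hv => by
      rcases hs v hv with h | h | h
      · exact Or.inr (Or.inl h)
      · exact Or.inr (Or.inr h)
      · exact Or.inl h)
  have h2 : x a = 0 := by
    by_contra hne
    rcases hs a hne with h | h | h
    · exact hap h
    · exact haq h
    · exact har h
  rw [h2, lamS_diag, h2, Finset.sum_eq_zero]
  · norm_num
  · intro b hb
    rw [Finset.mem_erase] at hb
    exact TB3_edge_zero h0 (Ne.symm hb.1) (Or.inl h2)

private theorem TB3_not (hD : IsCS D g) {x : V → ℝ} (hx : IsBary D x) {a b : V} (hab : a ≠ b)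
    (h : ¬ IsSV D s(a, b)) : lamS x s(a, b) = 0 := by
  obtain ⟨h0, -, p, q, r, hpqr, hs⟩ := hx
  have hqrp := hD.rot _ _ _ hpqr
  have hrpq := hD.rot _ _ _ hqrp
  by_contra hne
  apply h
  have ha : x a ≠ 0 := fun h => hne (TB3_edge_zero h0 hab (Or.inl h))
  have hb : x b ≠ 0 := fun h => hne (TB3_edge_zero h0 hab (Or.inr h))
  right
  rcases hs a ha with rfl | rfl | rfl <;> rcases hs b hb with rfl | rfl | rfl
  · exact absurd rfl hab
  · exact ⟨_, _, _, hpqr, rfl⟩
  · exact ⟨_, _, _, hrpq, Sym2.eq_swap⟩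
  · exact ⟨_, _, _, hpqr, Sym2.eq_swap⟩
  · exact absurd rfl hab
  · exact ⟨_, _, _, hqrp, rfl⟩
  · exact ⟨_, _, _, hrpq, rfl⟩
  · exact ⟨_, _, _, hqrp, Sym2.eq_swap⟩
  · exact absurd rfl hab

/-- Row TB3. `x a = lamS x s(a, a) + (1/2) ∑ lamS x s(a, b)` over the edges `s(a, b)` -/
theorem lamS_inj (hD : IsCS D g) {x y : V → ℝ} (hx : IsBary D x) (hy : IsBary D y)
    (h : ∀ v : SV D, lamS x v.1 = lamS y v.1) : x = y := by
  funext a
  rw [TB3_formula hD hx a, TB3_formula hD hy a, h ⟨s(a, a), Or.inl ⟨a, rfl⟩⟩]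
  congr 2
  refine Finset.sum_congr rfl fun b hb => ?_
  rw [Finset.mem_erase] at hb
  by_cases hs : IsSV D s(a, b)
  · exact h ⟨s(a, b), hs⟩
  · rw [TB3_not hD hx (Ne.symm hb.1) hs, TB3_not hD hy (Ne.symm hb.1) hs]

end TB3

section TB4

private theorem TB4_zero (t s : ℝ) : max 0 (min (min (2 * 0) t) s) = (0 : ℝ) := by
  rw [mul_zero]
  exact max_eq_left ((min_le_left _ _).trans (min_le_left _ _))

private theorem TB4_zero' (t s : ℝ) : max 0 (min (min t (2 * 0)) s) = (0 : ℝ) := by
  rw [mul_zero]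
  exact max_eq_left ((min_le_left _ _).trans (min_le_right _ _))

private theorem TB4_lam {a b c : V} (hab : a ≠ b) (hbc : b ≠ c) (hca : c ≠ a) (A B C : ℝ)
    (x : V → ℝ) (hx : ∀ v, x v = (if v = a then A else 0) + (if v = b then B else 0) +
      (if v = c then C else 0)) (e : Sym2 V) :
    lamS x e = (if e = s(a, a) then max 0 (2 * A - 1) else 0) +
      (if e = s(b, b) then max 0 (2 * B - 1) else 0) +
      (if e = s(c, c) then max 0 (2 * C - 1) else 0) +
      (if e = s(a, b) then max 0 (min (min (2 * A) (2 * B)) (2 * (A + B) - 1)) else 0) +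
      (if e = s(b, c) then max 0 (min (min (2 * B) (2 * C)) (2 * (B + C) - 1)) else 0) +
      (if e = s(c, a) then max 0 (min (min (2 * C) (2 * A)) (2 * (C + A) - 1)) else 0) := by
  have hba := hab.symm
  have hcb := hbc.symm
  have hac := hca.symm
  have xa : x a = A := by rw [hx]; simp [hab, hac]
  have xb : x b = B := by rw [hx]; simp [hba, hbc]
  have xc : x c = C := by rw [hx]; simp [hca, hcb]
  have x0 : ∀ v, v ≠ a → v ≠ b → v ≠ c → x v = 0 := by
    intro v h1 h2 h3; rw [hx]; simp [h1, h2, h3]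
  have hn : max 0 (2 * (0 : ℝ) - 1) = 0 := by norm_num
  induction e using Sym2.ind with
  | _ u v =>
    by_cases huv : u = v
    · subst huv
      rw [lamS_diag]
      by_cases h1 : u = a
      · subst h1
        rw [xa]
        simp [hab, hac, hca, hba]
      by_cases h2 : u = b
      · subst h2
        rw [xb]
        simp [hab, hbc, hcb, hba, hac, hca]
      by_cases h3 : u = c
      · subst h3
        rw [xc]
        simp [hab, hbc, hcb, hba, hac, hca]
      rw [x0 u h1 h2 h3, hn]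
      simp [h1, h2, h3]
    · rw [lamS_edge _ huv]
      by_cases h1 : u = a
      · subst h1
        rw [xa]
        by_cases h2 : v = b
        · subst h2
          rw [xb]
          simp [hab, hbc, hcb, hba, hac, hca]
        by_cases h3 : v = c
        · subst h3
          rw [xc]
          simp [hab, hbc, hcb, hba, hac, hca, min_comm (2 * A), add_comm A]
        rw [x0 v (Ne.symm huv) h2 h3, TB4_zero']
        simp [huv, Ne.symm huv, h2, h3, hab, hac]
      by_cases h2 : u = b
      · subst h2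
        rw [xb]
        by_cases h4 : v = a
        · subst h4
          rw [xa]
          simp [hab, hbc, hcb, hba, hac, hca, min_comm (2 * B), add_comm B]
        by_cases h3 : v = c
        · subst h3
          rw [xc]
          simp [hab, hbc, hcb, hba, hac, hca]
        rw [x0 v h4 (Ne.symm huv) h3, TB4_zero']
        simp [huv, Ne.symm huv, h4, h3, hba, hbc]
      by_cases h3 : u = c
      · subst h3
        rw [xc]
        by_cases h4 : v = a
        · subst h4
          rw [xa]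
          simp [hab, hbc, hcb, hba, hac, hca]
        by_cases h5 : v = b
        · subst h5
          rw [xb]
          simp [hab, hbc, hcb, hba, hac, hca, min_comm (2 * C), add_comm C]
        rw [x0 v h4 h5 (Ne.symm huv), TB4_zero']
        simp [huv, Ne.symm huv, h4, h5, hca, hcb]
      rw [x0 u h1 h2 h3, TB4_zero]
      simp [h1, h2, h3]

private theorem TB4_ab {s t u w : ℝ} (h1 : t ≤ s) (h2 : t ≤ u) (h0 : 0 ≤ t) (hw : t = w) :
    max 0 (min (min s t) u) = w := by
  rw [min_eq_right h1, min_eq_left h2, max_eq_right h0, hw]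

private theorem TB4_ca {s t u w : ℝ} (h1 : t ≤ s) (h2 : t ≤ u) (h0 : 0 ≤ t) (hw : t = w) :
    max 0 (min (min t s) u) = w := by
  rw [min_eq_left h1, min_eq_left h2, max_eq_right h0, hw]

private theorem TB4_m1 {t : ℝ} (h : t ≤ 0) : max 0 t = (0 : ℝ) := max_eq_left h

private theorem TB4_key (hD : IsCS D g) {p q r : Sym2 V} (h : SubR D p q r) :
    ∃ a b c, (a, b, c) ∈ D ∧ ∃ Q : Fin 3 → ℂ,
      ((Q 0 = 0 ∧ Q 1 = 1 / 2 ∧ Q 2 = Complex.I / 2) ∨
        (Q 0 = 1 / 2 ∧ Q 1 = Complex.I / 2 ∧ Q 2 = 0) ∨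
        (Q 0 = Complex.I / 2 ∧ Q 1 = 0 ∧ Q 2 = 1 / 2) ∨
        (Q 0 = 1 / 2 ∧ Q 1 = (1 + Complex.I) / 2 ∧ Q 2 = Complex.I / 2)) ∧
      ∀ z ∈ stdT, ∀ x : V → ℝ, (∀ v, x v = (if v = a then 1 - (aff Q z).re - (aff Q z).im else 0) +
        (if v = b then (aff Q z).re else 0) + (if v = c then (aff Q z).im else 0)) →
        ∀ e, lamS x e = (if e = p then 1 - z.re - z.im else 0) + (if e = q then z.re else 0) +
          (if e = r then z.im else 0) := by
  obtain ⟨a, b, c, habc, h⟩ := h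
  have hab : a ≠ b := hD.ne _ _ _ habc
  have hbc : b ≠ c := hD.ne _ _ _ (hD.rot _ _ _ habc)
  have hca : c ≠ a := hD.ne _ _ _ (hD.rot _ _ _ (hD.rot _ _ _ habc))
  refine ⟨a, b, c, habc, ?_⟩
  rcases h with ⟨rfl, rfl, rfl⟩ | ⟨rfl, rfl, rfl⟩ | ⟨rfl, rfl, rfl⟩ | ⟨rfl, rfl, rfl⟩
  · refine ⟨![0, 1 / 2, Complex.I / 2], Or.inl ⟨rfl, rfl, rfl⟩, fun z hz x hx e => ?_⟩
    obtain ⟨h1, h2, h3⟩ := hz
    have hre : (aff ![0, 1 / 2, Complex.I / 2] z).re = z.re / 2 := by
      simp [aff]; ring
    have him : (aff ![0, 1 / 2, Complex.I / 2] z).im = z.im / 2 := by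
      simp [aff]; ring
    rw [hre, him] at hx
    rw [TB4_lam hab hbc hca _ _ _ x hx e, Sym2.eq_swap (a := c) (b := a)]
    have e1 : max 0 (2 * (1 - z.re / 2 - z.im / 2) - 1) = 1 - z.re - z.im := by
      rw [max_eq_right (by linarith)]; ring
    have e2 : max 0 (2 * (z.re / 2) - 1) = 0 := TB4_m1 (by linarith)
    have e3 : max 0 (2 * (z.im / 2) - 1) = 0 := TB4_m1 (by linarith)
    have e4 : max 0 (min (min (2 * (1 - z.re / 2 - z.im / 2)) (2 * (z.re / 2)))
        (2 * (1 - z.re / 2 - z.im / 2 + z.re / 2) - 1)) = z.re := 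
      TB4_ab (by linarith) (by linarith) (by linarith) (by ring)
    have e5 : max 0 (min (min (2 * (z.re / 2)) (2 * (z.im / 2))) (2 * (z.re / 2 + z.im / 2) - 1)) = 0 :=
      TB4_m1 ((min_le_right _ _).trans (by linarith))
    have e6 : max 0 (min (min (2 * (z.im / 2)) (2 * (1 - z.re / 2 - z.im / 2)))
        (2 * (z.im / 2 + (1 - z.re / 2 - z.im / 2)) - 1)) = z.im := 
      TB4_ca (by linarith) (by linarith) (by linarith) (by ring)
    rw [e1, e2, e3, e4, e5, e6]
    simp
  · refine ⟨![1 / 2, Complex.I / 2, 0], Or.inr (Or.inl ⟨rfl, rfl, rfl⟩), fun z hz x hx e => ?_⟩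
    obtain ⟨h1, h2, h3⟩ := hz
    have hre : (aff ![1 / 2, Complex.I / 2, 0] z).re = (1 - z.re - z.im) / 2 := by
      simp [aff]; ring
    have him : (aff ![1 / 2, Complex.I / 2, 0] z).im = z.re / 2 := by
      simp [aff]; ring
    rw [hre, him] at hx
    rw [TB4_lam hab hbc hca _ _ _ x hx e, Sym2.eq_swap (a := c) (b := a)]
    have e1 : max 0 (2 * (1 - (1 - z.re - z.im) / 2 - z.re / 2) - 1) = z.im := by
      rw [max_eq_right (by linarith)]; ring
    have e2 : max 0 (2 * ((1 - z.re - z.im) / 2) - 1) = 0 := TB4_m1 (by linarith)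
    have e3 : max 0 (2 * (z.re / 2) - 1) = 0 := TB4_m1 (by linarith)
    have e4 : max 0 (min (min (2 * (1 - (1 - z.re - z.im) / 2 - z.re / 2)) (2 * ((1 - z.re - z.im) / 2)))
        (2 * (1 - (1 - z.re - z.im) / 2 - z.re / 2 + (1 - z.re - z.im) / 2) - 1)) = 1 - z.re - z.im := 
      TB4_ab (by linarith) (by linarith) (by linarith) (by ring)
    have e5 : max 0 (min (min (2 * ((1 - z.re - z.im) / 2)) (2 * (z.re / 2)))
        (2 * ((1 - z.re - z.im) / 2 + z.re / 2) - 1)) = 0 :=
      TB4_m1 ((min_le_right _ _).trans (by linarith))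
    have e6 : max 0 (min (min (2 * (z.re / 2)) (2 * (1 - (1 - z.re - z.im) / 2 - z.re / 2)))
        (2 * (z.re / 2 + (1 - (1 - z.re - z.im) / 2 - z.re / 2)) - 1)) = z.re := 
      TB4_ca (by linarith) (by linarith) (by linarith) (by ring)
    rw [e1, e2, e3, e4, e5, e6]
    simp only [ite_self, add_zero]
    ring
  · refine ⟨![Complex.I / 2, 0, 1 / 2], Or.inr (Or.inr (Or.inl ⟨rfl, rfl, rfl⟩)), fun z hz x hx e => ?_⟩
    obtain ⟨h1, h2, h3⟩ := hz
    have hre : (aff ![Complex.I / 2, 0, 1 / 2] z).re = z.im / 2 := by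
      simp [aff]; ring
    have him : (aff ![Complex.I / 2, 0, 1 / 2] z).im = (1 - z.re - z.im) / 2 := by
      simp [aff]; ring
    rw [hre, him] at hx
    rw [TB4_lam hab hbc hca _ _ _ x hx e, Sym2.eq_swap (a := c) (b := a)]
    have e1 : max 0 (2 * (1 - z.im / 2 - (1 - z.re - z.im) / 2) - 1) = z.re := by
      rw [max_eq_right (by linarith)]; ring
    have e2 : max 0 (2 * (z.im / 2) - 1) = 0 := TB4_m1 (by linarith)
    have e3 : max 0 (2 * ((1 - z.re - z.im) / 2) - 1) = 0 := TB4_m1 (by linarith)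
    have e4 : max 0 (min (min (2 * (1 - z.im / 2 - (1 - z.re - z.im) / 2)) (2 * (z.im / 2)))
        (2 * (1 - z.im / 2 - (1 - z.re - z.im) / 2 + z.im / 2) - 1)) = z.im := 
      TB4_ab (by linarith) (by linarith) (by linarith) (by ring)
    have e5 : max 0 (min (min (2 * (z.im / 2)) (2 * ((1 - z.re - z.im) / 2)))
        (2 * (z.im / 2 + (1 - z.re - z.im) / 2) - 1)) = 0 :=
      TB4_m1 ((min_le_right _ _).trans (by linarith))
    have e6 : max 0 (min (min (2 * ((1 - z.re - z.im) / 2)) (2 * (1 - z.im / 2 - (1 - z.re - z.im) / 2)))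
        (2 * ((1 - z.re - z.im) / 2 + (1 - z.im / 2 - (1 - z.re - z.im) / 2)) - 1)) =
        1 - z.re - z.im := 
      TB4_ca (by linarith) (by linarith) (by linarith) (by ring)
    rw [e1, e2, e3, e4, e5, e6]
    simp only [ite_self, add_zero]
    ring
  · refine ⟨![1 / 2, (1 + Complex.I) / 2, Complex.I / 2], Or.inr (Or.inr (Or.inr ⟨rfl, rfl, rfl⟩)),
      fun z hz x hx e => ?_⟩
    obtain ⟨h1, h2, h3⟩ := hz
    have hre : (aff ![1 / 2, (1 + Complex.I) / 2, Complex.I / 2] z).re = (1 - z.im) / 2 := by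
      simp [aff]; ring
    have him : (aff ![1 / 2, (1 + Complex.I) / 2, Complex.I / 2] z).im = (z.re + z.im) / 2 := by
      simp [aff]; ring
    rw [hre, him] at hx
    rw [TB4_lam hab hbc hca _ _ _ x hx e]
    have e1 : max 0 (2 * (1 - (1 - z.im) / 2 - (z.re + z.im) / 2) - 1) = 0 := TB4_m1 (by linarith)
    have e2 : max 0 (2 * ((1 - z.im) / 2) - 1) = 0 := TB4_m1 (by linarith)
    have e3 : max 0 (2 * ((z.re + z.im) / 2) - 1) = 0 := TB4_m1 (by linarith)
    have e4 : max 0 (min (min (2 * (1 - (1 - z.im) / 2 - (z.re + z.im) / 2)) (2 * ((1 - z.im) / 2)))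
        (2 * (1 - (1 - z.im) / 2 - (z.re + z.im) / 2 + (1 - z.im) / 2) - 1)) = 1 - z.re - z.im := by
      rw [min_eq_right (a := min (2 * (1 - (1 - z.im) / 2 - (z.re + z.im) / 2)) (2 * ((1 - z.im) / 2)))
        (le_min (by linarith) (by linarith)), max_eq_right (by linarith)]; ring
    have e5 : max 0 (min (min (2 * ((1 - z.im) / 2)) (2 * ((z.re + z.im) / 2)))
        (2 * ((1 - z.im) / 2 + (z.re + z.im) / 2) - 1)) = z.re := by
      rw [min_eq_right (a := min (2 * ((1 - z.im) / 2)) (2 * ((z.re + z.im) / 2)))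
        (le_min (by linarith) (by linarith)), max_eq_right (by linarith)]; ring
    have e6 : max 0 (min (min (2 * ((z.re + z.im) / 2)) (2 * (1 - (1 - z.im) / 2 - (z.re + z.im) / 2)))
        (2 * ((z.re + z.im) / 2 + (1 - (1 - z.im) / 2 - (z.re + z.im) / 2)) - 1)) = z.im := by
      rw [min_eq_right (a := min (2 * ((z.re + z.im) / 2)) (2 * (1 - (1 - z.im) / 2 - (z.re + z.im) / 2)))
        (le_min (by linarith) (by linarith)), max_eq_right (by linarith)]; ring
    rw [e1, e2, e3, e4, e5, e6]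
    simp only [ite_self, zero_add]

private theorem TB4_affmem {P : Fin 3 → ℂ} (hP : ∀ i, P i ∈ stdT) {z : ℂ} (hz : z ∈ stdT) :
    aff P z ∈ stdT := by
  obtain ⟨a1, a2, a3⟩ := hP 0
  obtain ⟨b1, b2, b3⟩ := hP 1
  obtain ⟨c1, c2, c3⟩ := hP 2
  obtain ⟨z1, z2, z3⟩ := hz
  have hre : (aff P z).re = (1 - z.re - z.im) * (P 0).re + z.re * (P 1).re + z.im * (P 2).re := by
    simp [aff]; ring
  have him : (aff P z).im = (1 - z.re - z.im) * (P 0).im + z.re * (P 1).im + z.im * (P 2).im := by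
    simp [aff]; ring
  have hw : 0 ≤ 1 - z.re - z.im := by linarith
  refine ⟨?_, ?_, ?_⟩
  · rw [hre]; positivity
  · rw [him]; positivity
  · rw [hre, him]
    have k1 := mul_le_mul_of_nonneg_left a3 hw
    have k2 := mul_le_mul_of_nonneg_left b3 z1
    have k3 := mul_le_mul_of_nonneg_left c3 z2
    nlinarith

private theorem TB4_affaff (P Q : Fin 3 → ℂ) (z : ℂ) :
    aff (fun i => aff P (Q i)) z = aff P (aff Q z) := by
  apply Complex.ext <;> simp [aff] <;> ring

private theorem TB4_ne (hD : IsCS D g) {p q r : Sym2 V} (h : SubR D p q r) : p ≠ q ∧ q ≠ r ∧ p ≠ r := by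
  obtain ⟨a, b, c, habc, h⟩ := h
  have hab : a ≠ b := hD.ne _ _ _ habc
  have hbc : b ≠ c := hD.ne _ _ _ (hD.rot _ _ _ habc)
  have hca : c ≠ a := hD.ne _ _ _ (hD.rot _ _ _ (hD.rot _ _ _ habc))
  rcases h with ⟨rfl, rfl, rfl⟩ | ⟨rfl, rfl, rfl⟩ | ⟨rfl, rfl, rfl⟩ | ⟨rfl, rfl, rfl⟩ <;>
    simp [hab, hbc, hca, hab.symm, hbc.symm, hca.symm]

/-- Row TB4. `x a = w s(a, a) + (1/2) ∑ w s(a, b)` -/
theorem lamS_surj (hD : IsCS D g) {w : SV D → ℝ} (hw : IsBary (subD D) w) :
    ∃ x : V → ℝ, IsBary D x ∧ ∀ v : SV D, lamS x v.1 = w v := by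
  classical
  obtain ⟨h0, h1, p, q, r, hpqr, hs⟩ := hw
  have hsub := mem_subD.1 hpqr
  obtain ⟨hpq', hqr', hpr'⟩ := TB4_ne hD hsub
  have hpq : p ≠ q := fun h => hpq' (congrArg (fun w : SV D => w.1) h)
  have hqr : q ≠ r := fun h => hqr' (congrArg (fun w : SV D => w.1) h)
  have hpr : p ≠ r := fun h => hpr' (congrArg (fun w : SV D => w.1) h)
  have hsum : w p + w q + w r = 1 := by
    rw [← h1, ← Finset.sum_subset (Finset.subset_univ ({p, q, r} : Finset (SV D)))]
    · rw [Finset.sum_insert (by simp [hpq, hpr]), Finset.sum_insert (by simp [hqr]),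
        Finset.sum_singleton, add_assoc]
    · intro v _ hv
      by_contra hne
      apply hv
      rcases hs v hne with h | h | h <;> simp [h]
  obtain ⟨a, b, c, habc, Q, hQ, hlam⟩ := TB4_key hD hsub
  have hab : a ≠ b := hD.ne _ _ _ habc
  have hbc : b ≠ c := hD.ne _ _ _ (hD.rot _ _ _ habc)
  have hca : c ≠ a := hD.ne _ _ _ (hD.rot _ _ _ (hD.rot _ _ _ habc))
  have hQm : ∀ i, Q i ∈ stdT := by
    intro i
    rcases hQ with ⟨h0, h1, h2⟩ | ⟨h0, h1, h2⟩ | ⟨h0, h1, h2⟩ | ⟨h0, h1, h2⟩ <;> fin_cases i <;>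
      simp only [Fin.zero_eta, Fin.mk_one, Fin.reduceFinMk, h0, h1, h2] <;>
      refine ⟨?_, ?_, ?_⟩ <;> norm_num
  obtain ⟨z, hzdef⟩ : ∃ z : ℂ, z = ⟨w q, w r⟩ := ⟨_, rfl⟩
  have hzre : z.re = w q := by rw [hzdef]
  have hzim : z.im = w r := by rw [hzdef]
  have hz : z ∈ stdT := by
    refine ⟨?_, ?_, ?_⟩
    · rw [hzre]; exact h0 q
    · rw [hzim]; exact h0 r
    · rw [hzre, hzim]; linarith [h0 p]
  have ha := TB4_affmem hQm hz
  obtain ⟨a1, a2, a3⟩ := ha
  refine ⟨fun v => (if v = a then 1 - (aff Q z).re - (aff Q z).im else 0) +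
        (if v = b then (aff Q z).re else 0) + (if v = c then (aff Q z).im else 0), ⟨?_, ?_, ?_⟩, ?_⟩
  · intro v
    have k1 : 0 ≤ (if v = a then 1 - (aff Q z).re - (aff Q z).im else 0) := by
      split_ifs <;> linarith
    have k2 : 0 ≤ (if v = b then (aff Q z).re else 0) := by split_ifs <;> linarith
    have k3 : 0 ≤ (if v = c then (aff Q z).im else 0) := by split_ifs <;> linarith
    show 0 ≤ (if v = a then 1 - (aff Q z).re - (aff Q z).im else 0) +
        (if v = b then (aff Q z).re else 0) + (if v = c then (aff Q z).im else 0)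
    linarith
  · rw [Finset.sum_add_distrib, Finset.sum_add_distrib]
    simp only [Finset.sum_ite_eq', Finset.mem_univ, if_true]
    ring
  · refine ⟨a, b, c, habc, fun v hv => ?_⟩
    by_contra hne
    push Not at hne
    apply hv
    simp [hne.1, hne.2.1, hne.2.2]
  · intro v
    rw [hlam z hz _ (fun _ => rfl) v.1, hzre, hzim]
    have e0 : ∀ u : SV D, (v.1 = u.1) = (v = u) := fun u =>
      propext ⟨fun h => Subtype.ext h, fun h => congrArg (fun w : SV D => w.1) h⟩
    simp only [e0]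
    by_cases hvp : v = p
    · rw [hvp]
      simp only [hpq, hpr, if_true, if_false]
      linarith
    by_cases hvq : v = q
    · rw [hvq]
      simp only [hpq.symm, hqr, if_true, if_false]
      linarith
    by_cases hvr : v = r
    · rw [hvr]
      simp only [hpr.symm, hqr.symm, if_true, if_false]
      linarith
    simp only [hvp, hvq, hvr, if_false]
    by_contra hne
    have hne' : w v ≠ 0 := fun h => hne (by rw [h]; ring)
    rcases hs v hne' with h | h | h
    · exact hvp h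
    · exact hvq h
    · exact hvr h

end TB4

section TB5

private theorem TB5_cont {M : Type} [TopologicalSpace M] {f : M → V → ℝ}
    (hf : ∀ v, Continuous fun y => f y v) (e : Sym2 V) : Continuous fun y => lamS (f y) e := by
  induction e with
  | h a b =>
    by_cases hab : a = b
    · subst hab
      have e1 : (fun y => lamS (f y) s(a, a)) = fun y => max 0 (2 * f y a - 1) := by
        funext y
        exact lamS_diag _ _
      rw [e1]
      exact continuous_const.max ((continuous_const.mul (hf a)).sub continuous_const)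
    · have e1 : (fun y => lamS (f y) s(a, b)) =
          fun y => max 0 (min (min (2 * f y a) (2 * f y b)) (2 * (f y a + f y b) - 1)) := by
        funext y
        exact lamS_edge _ hab
      rw [e1]
      exact continuous_const.max (((continuous_const.mul (hf a)).min
        (continuous_const.mul (hf b))).min
          ((continuous_const.mul ((hf a).add (hf b))).sub continuous_const))

private theorem TB5_nonneg (x : V → ℝ) (e : Sym2 V) : 0 ≤ lamS x e := by
  induction e with
  | h a b =>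
    by_cases hab : a = b
    · subst hab
      rw [lamS_diag]
      exact le_max_left _ _
    · rw [lamS_edge _ hab]
      exact le_max_left _ _

/-- Row TB5. assembly -/
theorem exists_sub (hD : IsCS D g) {M : Type} [MetricSpace M] (τ : PreTri D M) :
    ∃ τ' : PreTri (subD D) M, ∀ y v, τ'.lam y v = lamS (τ.lam y) v.1 := by
  refine ⟨{ lam := fun y v => lamS (τ.lam y) v.1
            cont := fun v => TB5_cont τ.cont v.1
            bary := fun y => ⟨fun v => TB5_nonneg _ _, lamS_sum hD (τ.bary y),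
              lamS_supp hD (τ.bary y)⟩
            surj := fun w hw => ?_
            inj := fun y y' h => ?_ }, fun y v => rfl⟩
  · obtain ⟨x, hx, h⟩ := lamS_surj hD hw
    obtain ⟨y, rfl⟩ := τ.surj x hx
    exact ⟨y, funext h⟩
  · exact τ.inj (lamS_inj hD (τ.bary y) (τ.bary y') fun v => congrFun h v)

end TB5

section TB6

private theorem TB6_zero (t s : ℝ) : max 0 (min (min (2 * 0) t) s) = (0 : ℝ) := by
  rw [mul_zero]
  exact max_eq_left ((min_le_left _ _).trans (min_le_left _ _))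

private theorem TB6_zero' (t s : ℝ) : max 0 (min (min t (2 * 0)) s) = (0 : ℝ) := by
  rw [mul_zero]
  exact max_eq_left ((min_le_left _ _).trans (min_le_right _ _))

private theorem TB6_lam {a b c : V} (hab : a ≠ b) (hbc : b ≠ c) (hca : c ≠ a) (A B C : ℝ)
    (x : V → ℝ) (hx : ∀ v, x v = (if v = a then A else 0) + (if v = b then B else 0) +
      (if v = c then C else 0)) (e : Sym2 V) :
    lamS x e = (if e = s(a, a) then max 0 (2 * A - 1) else 0) +
      (if e = s(b, b) then max 0 (2 * B - 1) else 0) +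
      (if e = s(c, c) then max 0 (2 * C - 1) else 0) +
      (if e = s(a, b) then max 0 (min (min (2 * A) (2 * B)) (2 * (A + B) - 1)) else 0) +
      (if e = s(b, c) then max 0 (min (min (2 * B) (2 * C)) (2 * (B + C) - 1)) else 0) +
      (if e = s(c, a) then max 0 (min (min (2 * C) (2 * A)) (2 * (C + A) - 1)) else 0) := by
  have hba := hab.symm
  have hcb := hbc.symm
  have hac := hca.symm
  have xa : x a = A := by rw [hx]; simp [hab, hac]
  have xb : x b = B := by rw [hx]; simp [hba, hbc]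
  have xc : x c = C := by rw [hx]; simp [hca, hcb]
  have x0 : ∀ v, v ≠ a → v ≠ b → v ≠ c → x v = 0 := by
    intro v h1 h2 h3; rw [hx]; simp [h1, h2, h3]
  have hn : max 0 (2 * (0 : ℝ) - 1) = 0 := by norm_num
  induction e using Sym2.ind with
  | _ u v =>
    by_cases huv : u = v
    · subst huv
      rw [lamS_diag]
      by_cases h1 : u = a
      · subst h1
        rw [xa]
        simp [hab, hac, hca, hba]
      by_cases h2 : u = b
      · subst h2
        rw [xb]
        simp [hab, hbc, hcb, hba, hac, hca]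
      by_cases h3 : u = c
      · subst h3
        rw [xc]
        simp [hab, hbc, hcb, hba, hac, hca]
      rw [x0 u h1 h2 h3, hn]
      simp [h1, h2, h3]
    · rw [lamS_edge _ huv]
      by_cases h1 : u = a
      · subst h1
        rw [xa]
        by_cases h2 : v = b
        · subst h2
          rw [xb]
          simp [hab, hbc, hcb, hba, hac, hca]
        by_cases h3 : v = c
        · subst h3
          rw [xc]
          simp [hab, hbc, hcb, hba, hac, hca, min_comm (2 * A), add_comm A]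
        rw [x0 v (Ne.symm huv) h2 h3, TB6_zero']
        simp [huv, Ne.symm huv, h2, h3, hab, hac]
      by_cases h2 : u = b
      · subst h2
        rw [xb]
        by_cases h4 : v = a
        · subst h4
          rw [xa]
          simp [hab, hbc, hcb, hba, hac, hca, min_comm (2 * B), add_comm B]
        by_cases h3 : v = c
        · subst h3
          rw [xc]
          simp [hab, hbc, hcb, hba, hac, hca]
        rw [x0 v h4 (Ne.symm huv) h3, TB6_zero']
        simp [huv, Ne.symm huv, h4, h3, hba, hbc]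
      by_cases h3 : u = c
      · subst h3
        rw [xc]
        by_cases h4 : v = a
        · subst h4
          rw [xa]
          simp [hab, hbc, hcb, hba, hac, hca]
        by_cases h5 : v = b
        · subst h5
          rw [xb]
          simp [hab, hbc, hcb, hba, hac, hca, min_comm (2 * C), add_comm C]
        rw [x0 v h4 h5 (Ne.symm huv), TB6_zero']
        simp [huv, Ne.symm huv, h4, h5, hca, hcb]
      rw [x0 u h1 h2 h3, TB6_zero]
      simp [h1, h2, h3]

private theorem TB6_ab {s t u w : ℝ} (h1 : t ≤ s) (h2 : t ≤ u) (h0 : 0 ≤ t) (hw : t = w) :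
    max 0 (min (min s t) u) = w := by
  rw [min_eq_right h1, min_eq_left h2, max_eq_right h0, hw]

private theorem TB6_ca {s t u w : ℝ} (h1 : t ≤ s) (h2 : t ≤ u) (h0 : 0 ≤ t) (hw : t = w) :
    max 0 (min (min t s) u) = w := by
  rw [min_eq_left h1, min_eq_left h2, max_eq_right h0, hw]

private theorem TB6_m1 {t : ℝ} (h : t ≤ 0) : max 0 t = (0 : ℝ) := max_eq_left h

private theorem TB6_key (hD : IsCS D g) {p q r : Sym2 V} (h : SubR D p q r) :
    ∃ a b c, (a, b, c) ∈ D ∧ ∃ Q : Fin 3 → ℂ,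
      ((Q 0 = 0 ∧ Q 1 = 1 / 2 ∧ Q 2 = Complex.I / 2) ∨
        (Q 0 = 1 / 2 ∧ Q 1 = Complex.I / 2 ∧ Q 2 = 0) ∨
        (Q 0 = Complex.I / 2 ∧ Q 1 = 0 ∧ Q 2 = 1 / 2) ∨
        (Q 0 = 1 / 2 ∧ Q 1 = (1 + Complex.I) / 2 ∧ Q 2 = Complex.I / 2)) ∧
      ∀ z ∈ stdT, ∀ x : V → ℝ, (∀ v, x v = (if v = a then 1 - (aff Q z).re - (aff Q z).im else 0) +
        (if v = b then (aff Q z).re else 0) + (if v = c then (aff Q z).im else 0)) →
        ∀ e, lamS x e = (if e = p then 1 - z.re - z.im else 0) + (if e = q then z.re else 0) +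
          (if e = r then z.im else 0) := by
  obtain ⟨a, b, c, habc, h⟩ := h
  have hab : a ≠ b := hD.ne _ _ _ habc
  have hbc : b ≠ c := hD.ne _ _ _ (hD.rot _ _ _ habc)
  have hca : c ≠ a := hD.ne _ _ _ (hD.rot _ _ _ (hD.rot _ _ _ habc))
  refine ⟨a, b, c, habc, ?_⟩
  rcases h with ⟨rfl, rfl, rfl⟩ | ⟨rfl, rfl, rfl⟩ | ⟨rfl, rfl, rfl⟩ | ⟨rfl, rfl, rfl⟩
  · refine ⟨![0, 1 / 2, Complex.I / 2], Or.inl ⟨rfl, rfl, rfl⟩, fun z hz x hx e => ?_⟩
    obtain ⟨h1, h2, h3⟩ := hz
    have hre : (aff ![0, 1 / 2, Complex.I / 2] z).re = z.re / 2 := by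
      simp [aff]; ring
    have him : (aff ![0, 1 / 2, Complex.I / 2] z).im = z.im / 2 := by
      simp [aff]; ring
    rw [hre, him] at hx
    rw [TB6_lam hab hbc hca _ _ _ x hx e, Sym2.eq_swap (a := c) (b := a)]
    have e1 : max 0 (2 * (1 - z.re / 2 - z.im / 2) - 1) = 1 - z.re - z.im := by
      rw [max_eq_right (by linarith)]; ring
    have e2 : max 0 (2 * (z.re / 2) - 1) = 0 := TB6_m1 (by linarith)
    have e3 : max 0 (2 * (z.im / 2) - 1) = 0 := TB6_m1 (by linarith)
    have e4 : max 0 (min (min (2 * (1 - z.re / 2 - z.im / 2)) (2 * (z.re / 2)))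
        (2 * (1 - z.re / 2 - z.im / 2 + z.re / 2) - 1)) = z.re := 
      TB6_ab (by linarith) (by linarith) (by linarith) (by ring)
    have e5 : max 0 (min (min (2 * (z.re / 2)) (2 * (z.im / 2))) (2 * (z.re / 2 + z.im / 2) - 1)) = 0 :=
      TB6_m1 ((min_le_right _ _).trans (by linarith))
    have e6 : max 0 (min (min (2 * (z.im / 2)) (2 * (1 - z.re / 2 - z.im / 2)))
        (2 * (z.im / 2 + (1 - z.re / 2 - z.im / 2)) - 1)) = z.im := 
      TB6_ca (by linarith) (by linarith) (by linarith) (by ring)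
    rw [e1, e2, e3, e4, e5, e6]
    simp
  · refine ⟨![1 / 2, Complex.I / 2, 0], Or.inr (Or.inl ⟨rfl, rfl, rfl⟩), fun z hz x hx e => ?_⟩
    obtain ⟨h1, h2, h3⟩ := hz
    have hre : (aff ![1 / 2, Complex.I / 2, 0] z).re = (1 - z.re - z.im) / 2 := by
      simp [aff]; ring
    have him : (aff ![1 / 2, Complex.I / 2, 0] z).im = z.re / 2 := by
      simp [aff]; ring
    rw [hre, him] at hx
    rw [TB6_lam hab hbc hca _ _ _ x hx e, Sym2.eq_swap (a := c) (b := a)]
    have e1 : max 0 (2 * (1 - (1 - z.re - z.im) / 2 - z.re / 2) - 1) = z.im := by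
      rw [max_eq_right (by linarith)]; ring
    have e2 : max 0 (2 * ((1 - z.re - z.im) / 2) - 1) = 0 := TB6_m1 (by linarith)
    have e3 : max 0 (2 * (z.re / 2) - 1) = 0 := TB6_m1 (by linarith)
    have e4 : max 0 (min (min (2 * (1 - (1 - z.re - z.im) / 2 - z.re / 2)) (2 * ((1 - z.re - z.im) / 2)))
        (2 * (1 - (1 - z.re - z.im) / 2 - z.re / 2 + (1 - z.re - z.im) / 2) - 1)) = 1 - z.re - z.im := 
      TB6_ab (by linarith) (by linarith) (by linarith) (by ring)
    have e5 : max 0 (min (min (2 * ((1 - z.re - z.im) / 2)) (2 * (z.re / 2)))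
        (2 * ((1 - z.re - z.im) / 2 + z.re / 2) - 1)) = 0 :=
      TB6_m1 ((min_le_right _ _).trans (by linarith))
    have e6 : max 0 (min (min (2 * (z.re / 2)) (2 * (1 - (1 - z.re - z.im) / 2 - z.re / 2)))
        (2 * (z.re / 2 + (1 - (1 - z.re - z.im) / 2 - z.re / 2)) - 1)) = z.re := 
      TB6_ca (by linarith) (by linarith) (by linarith) (by ring)
    rw [e1, e2, e3, e4, e5, e6]
    simp only [ite_self, add_zero]
    ring
  · refine ⟨![Complex.I / 2, 0, 1 / 2], Or.inr (Or.inr (Or.inl ⟨rfl, rfl, rfl⟩)), fun z hz x hx e => ?_⟩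
    obtain ⟨h1, h2, h3⟩ := hz
    have hre : (aff ![Complex.I / 2, 0, 1 / 2] z).re = z.im / 2 := by
      simp [aff]; ring
    have him : (aff ![Complex.I / 2, 0, 1 / 2] z).im = (1 - z.re - z.im) / 2 := by
      simp [aff]; ring
    rw [hre, him] at hx
    rw [TB6_lam hab hbc hca _ _ _ x hx e, Sym2.eq_swap (a := c) (b := a)]
    have e1 : max 0 (2 * (1 - z.im / 2 - (1 - z.re - z.im) / 2) - 1) = z.re := by
      rw [max_eq_right (by linarith)]; ring
    have e2 : max 0 (2 * (z.im / 2) - 1) = 0 := TB6_m1 (by linarith)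
    have e3 : max 0 (2 * ((1 - z.re - z.im) / 2) - 1) = 0 := TB6_m1 (by linarith)
    have e4 : max 0 (min (min (2 * (1 - z.im / 2 - (1 - z.re - z.im) / 2)) (2 * (z.im / 2)))
        (2 * (1 - z.im / 2 - (1 - z.re - z.im) / 2 + z.im / 2) - 1)) = z.im := 
      TB6_ab (by linarith) (by linarith) (by linarith) (by ring)
    have e5 : max 0 (min (min (2 * (z.im / 2)) (2 * ((1 - z.re - z.im) / 2)))
        (2 * (z.im / 2 + (1 - z.re - z.im) / 2) - 1)) = 0 :=
      TB6_m1 ((min_le_right _ _).trans (by linarith))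
    have e6 : max 0 (min (min (2 * ((1 - z.re - z.im) / 2)) (2 * (1 - z.im / 2 - (1 - z.re - z.im) / 2)))
        (2 * ((1 - z.re - z.im) / 2 + (1 - z.im / 2 - (1 - z.re - z.im) / 2)) - 1)) =
        1 - z.re - z.im := 
      TB6_ca (by linarith) (by linarith) (by linarith) (by ring)
    rw [e1, e2, e3, e4, e5, e6]
    simp only [ite_self, add_zero]
    ring
  · refine ⟨![1 / 2, (1 + Complex.I) / 2, Complex.I / 2], Or.inr (Or.inr (Or.inr ⟨rfl, rfl, rfl⟩)),
      fun z hz x hx e => ?_⟩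
    obtain ⟨h1, h2, h3⟩ := hz
    have hre : (aff ![1 / 2, (1 + Complex.I) / 2, Complex.I / 2] z).re = (1 - z.im) / 2 := by
      simp [aff]; ring
    have him : (aff ![1 / 2, (1 + Complex.I) / 2, Complex.I / 2] z).im = (z.re + z.im) / 2 := by
      simp [aff]; ring
    rw [hre, him] at hx
    rw [TB6_lam hab hbc hca _ _ _ x hx e]
    have e1 : max 0 (2 * (1 - (1 - z.im) / 2 - (z.re + z.im) / 2) - 1) = 0 := TB6_m1 (by linarith)
    have e2 : max 0 (2 * ((1 - z.im) / 2) - 1) = 0 := TB6_m1 (by linarith)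
    have e3 : max 0 (2 * ((z.re + z.im) / 2) - 1) = 0 := TB6_m1 (by linarith)
    have e4 : max 0 (min (min (2 * (1 - (1 - z.im) / 2 - (z.re + z.im) / 2)) (2 * ((1 - z.im) / 2)))
        (2 * (1 - (1 - z.im) / 2 - (z.re + z.im) / 2 + (1 - z.im) / 2) - 1)) = 1 - z.re - z.im := by
      rw [min_eq_right (a := min (2 * (1 - (1 - z.im) / 2 - (z.re + z.im) / 2)) (2 * ((1 - z.im) / 2)))
        (le_min (by linarith) (by linarith)), max_eq_right (by linarith)]; ring
    have e5 : max 0 (min (min (2 * ((1 - z.im) / 2)) (2 * ((z.re + z.im) / 2)))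
        (2 * ((1 - z.im) / 2 + (z.re + z.im) / 2) - 1)) = z.re := by
      rw [min_eq_right (a := min (2 * ((1 - z.im) / 2)) (2 * ((z.re + z.im) / 2)))
        (le_min (by linarith) (by linarith)), max_eq_right (by linarith)]; ring
    have e6 : max 0 (min (min (2 * ((z.re + z.im) / 2)) (2 * (1 - (1 - z.im) / 2 - (z.re + z.im) / 2)))
        (2 * ((z.re + z.im) / 2 + (1 - (1 - z.im) / 2 - (z.re + z.im) / 2)) - 1)) = z.im := by
      rw [min_eq_right (a := min (2 * ((z.re + z.im) / 2)) (2 * (1 - (1 - z.im) / 2 - (z.re + z.im) / 2)))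
        (le_min (by linarith) (by linarith)), max_eq_right (by linarith)]; ring
    rw [e1, e2, e3, e4, e5, e6]
    simp only [ite_self, zero_add]

private theorem TB6_affmem {P : Fin 3 → ℂ} (hP : ∀ i, P i ∈ stdT) {z : ℂ} (hz : z ∈ stdT) :
    aff P z ∈ stdT := by
  obtain ⟨a1, a2, a3⟩ := hP 0
  obtain ⟨b1, b2, b3⟩ := hP 1
  obtain ⟨c1, c2, c3⟩ := hP 2
  obtain ⟨z1, z2, z3⟩ := hz
  have hre : (aff P z).re = (1 - z.re - z.im) * (P 0).re + z.re * (P 1).re + z.im * (P 2).re := by
    simp [aff]; ring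
  have him : (aff P z).im = (1 - z.re - z.im) * (P 0).im + z.re * (P 1).im + z.im * (P 2).im := by
    simp [aff]; ring
  have hw : 0 ≤ 1 - z.re - z.im := by linarith
  refine ⟨?_, ?_, ?_⟩
  · rw [hre]; positivity
  · rw [him]; positivity
  · rw [hre, him]
    have k1 := mul_le_mul_of_nonneg_left a3 hw
    have k2 := mul_le_mul_of_nonneg_left b3 z1
    have k3 := mul_le_mul_of_nonneg_left c3 z2
    nlinarith

private theorem TB6_affaff (P Q : Fin 3 → ℂ) (z : ℂ) :
    aff (fun i => aff P (Q i)) z = aff P (aff Q z) := by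
  apply Complex.ext <;> simp [aff] <;> ring

/-- Row TB6. `P` for the rotations of the triangle at the vertex `a`: `P 0`, `(P 0 + P 1) / 2`,
`(P 0 + P 2) / 2`, for the triangle in the middle the three midpoints; `aff` of these at `z` is `aff P`
at the corresponding point of `stdT`, whose `lamS` is computed with `lamS_diag`, `lamS_edge` -/
theorem isPar_sub (hD : IsCS D g) {M : Type} [MetricSpace M] {τ : PreTri D M}
    {τ' : PreTri (subD D) M} (h : ∀ y v, τ'.lam y v = lamS (τ.lam y) v.1) {J : Type}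
    {q : J → ℂ → M} {L : ℝ} {j : V × V × V → J} {P : V × V × V → Fin 3 → ℂ}
    (hP : IsPar q τ L j P) : ∃ (j' : SV D × SV D × SV D → J)
      (P' : SV D × SV D × SV D → Fin 3 → ℂ), IsPar q τ' (L / 2) j' P' := by
  classical
  have key : ∀ t : SV D × SV D × SV D, t ∈ subD D → ∃ p : J × (Fin 3 → ℂ),
      (∀ i, p.2 i ∈ stdT) ∧ (∀ i k, ‖p.2 i - p.2 k‖ ≤ L / 2) ∧
      0 < ((starRingEnd ℂ) (p.2 1 - p.2 0) * (p.2 2 - p.2 0)).im ∧
      ∀ z ∈ stdT, ∀ v, τ'.lam (q p.1 (aff p.2 z)) v =
        (if v = t.1 then 1 - z.re - z.im else 0) + (if v = t.2.1 then z.re else 0) +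
          (if v = t.2.2 then z.im else 0) := by
    intro t ht
    obtain ⟨a, b, c, habc, Q, hQ, hlam⟩ := TB6_key hD (mem_subD.1 (show (t.1, t.2.1, t.2.2) ∈ subD D from ht))
    have hQm : ∀ i, Q i ∈ stdT := by
      intro i
      rcases hQ with ⟨h0, h1, h2⟩ | ⟨h0, h1, h2⟩ | ⟨h0, h1, h2⟩ | ⟨h0, h1, h2⟩ <;> fin_cases i <;>
        simp only [Fin.zero_eta, Fin.mk_one, Fin.reduceFinMk, h0, h1, h2] <;>
        refine ⟨?_, ?_, ?_⟩ <;> norm_num
    set R := P (a, b, c) with hR
    have hRm : ∀ i, R i ∈ stdT := hP.mem _ habc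
    have hpos := hP.pos _ habc
    rw [← hR] at hpos
    have hL : ∀ i k, ‖R i - R k‖ ≤ L := hP.edge _ habc
    have hhalf : ∀ (i k : Fin 3) (w : ℂ), w = (R i - R k) / 2 → ‖w‖ ≤ L / 2 := by
      intro i k w hw
      rw [hw, norm_div, Complex.norm_ofNat]
      linarith [hL i k]
    refine ⟨(j (a, b, c), fun i => aff R (Q i)), fun i => TB6_affmem hRm (hQm i), ?_, ?_, ?_⟩
    · intro i k
      have hL0 : 0 ≤ L / 2 := by
        have := (norm_nonneg _).trans (hL 0 0)
        linarith
      have e01 : ∀ u v : ℂ, aff R u - aff R v = ((u - v).re : ℂ) * (R 1 - R 0) + ((u - v).im : ℂ) * (R 2 - R 0) := by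
        intro u v
        simp only [aff, Complex.sub_re, Complex.sub_im, Complex.ofReal_sub]
        ring
      have d1 : ∀ u v : ℂ, u - v = 1 / 2 → ‖aff R u - aff R v‖ ≤ L / 2 := by
        intro u v huv
        apply hhalf 1 0
        rw [e01, huv]
        norm_num
        ring
      have d1' : ∀ u v : ℂ, u - v = -(1 / 2) → ‖aff R u - aff R v‖ ≤ L / 2 := by
        intro u v huv
        rw [norm_sub_rev]
        apply d1
        rw [← neg_sub, huv, neg_neg]
      have d2 : ∀ u v : ℂ, u - v = Complex.I / 2 → ‖aff R u - aff R v‖ ≤ L / 2 := by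
        intro u v huv
        apply hhalf 2 0
        rw [e01, huv]
        norm_num
        ring
      have d2' : ∀ u v : ℂ, u - v = -(Complex.I / 2) → ‖aff R u - aff R v‖ ≤ L / 2 := by
        intro u v huv
        rw [norm_sub_rev]
        apply d2
        rw [← neg_sub, huv, neg_neg]
      have d3 : ∀ u v : ℂ, u - v = (Complex.I - 1) / 2 → ‖aff R u - aff R v‖ ≤ L / 2 := by
        intro u v huv
        apply hhalf 2 1
        rw [e01, huv]
        norm_num
        ring
      have d3' : ∀ u v : ℂ, u - v = (1 - Complex.I) / 2 → ‖aff R u - aff R v‖ ≤ L / 2 := by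
        intro u v huv
        rw [norm_sub_rev]
        apply d3
        rw [← neg_sub, huv]
        ring
      have d0 : ∀ u v : ℂ, u = v → ‖aff R u - aff R v‖ ≤ L / 2 := by
        intro u v huv
        rw [huv, sub_self, norm_zero]
        exact hL0
      show ‖aff R (Q i) - aff R (Q k)‖ ≤ L / 2
      have hcases : Q i = Q k ∨ Q i - Q k = 1 / 2 ∨ Q i - Q k = -(1 / 2) ∨ Q i - Q k = Complex.I / 2 ∨
          Q i - Q k = -(Complex.I / 2) ∨ Q i - Q k = (Complex.I - 1) / 2 ∨ Q i - Q k = (1 - Complex.I) / 2 := by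
        rcases hQ with ⟨h0, h1, h2⟩ | ⟨h0, h1, h2⟩ | ⟨h0, h1, h2⟩ | ⟨h0, h1, h2⟩ <;> fin_cases i <;>
          fin_cases k <;> simp only [Fin.zero_eta, Fin.mk_one, Fin.reduceFinMk, h0, h1, h2]
        all_goals first
          | exact Or.inl trivial
          | exact Or.inl rfl
          | exact Or.inr (Or.inl (by ring1))
          | exact Or.inr (Or.inr (Or.inl (by ring1)))
          | exact Or.inr (Or.inr (Or.inr (Or.inl (by ring1))))
          | exact Or.inr (Or.inr (Or.inr (Or.inr (Or.inl (by ring1)))))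
          | exact Or.inr (Or.inr (Or.inr (Or.inr (Or.inr (Or.inl (by ring1))))))
          | exact Or.inr (Or.inr (Or.inr (Or.inr (Or.inr (Or.inr (by ring1))))))
      rcases hcases with h | h | h | h | h | h | h
      · exact d0 _ _ h
      · exact d1 _ _ h
      · exact d1' _ _ h
      · exact d2 _ _ h
      · exact d2' _ _ h
      · exact d3 _ _ h
      · exact d3' _ _ h
    · show 0 < ((starRingEnd ℂ) (aff R (Q 1) - aff R (Q 0)) * (aff R (Q 2) - aff R (Q 0))).im
      have hval : ((starRingEnd ℂ) (aff R (Q 1) - aff R (Q 0)) * (aff R (Q 2) - aff R (Q 0))).im =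
          ((starRingEnd ℂ) (R 1 - R 0) * (R 2 - R 0)).im / 4 := by
        rcases hQ with ⟨h0, h1, h2⟩ | ⟨h0, h1, h2⟩ | ⟨h0, h1, h2⟩ | ⟨h0, h1, h2⟩ <;> rw [h0, h1, h2] <;>
          simp [aff] <;> ring
      rw [hval]
      linarith
    · intro z hz v
      show τ'.lam (q (j (a, b, c)) (aff (fun i => aff R (Q i)) z)) v = _
      rw [TB6_affaff, h, hlam z hz _ (fun v => hP.lam _ habc _ (TB6_affmem hQm hz) v) v.1]
      have e0 : ∀ w : SV D, (v.1 = w.1) = (v = w) := fun w =>
        propext ⟨fun h => Subtype.ext h, fun h => congrArg (fun w : SV D => w.1) h⟩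
      simp only [e0]
  refine ⟨fun t => if ht : t ∈ subD D then (key t ht).choose.1 else
      j ((Quot.out t.1.1).1, (Quot.out t.1.1).1, (Quot.out t.1.1).1),
    fun t => if ht : t ∈ subD D then (key t ht).choose.2 else 0, ?_, ?_, ?_, ?_⟩
  · intro t ht i
    simp only [dif_pos ht]
    exact (key t ht).choose_spec.1 i
  · intro t ht i k
    simp only [dif_pos ht]
    exact (key t ht).choose_spec.2.1 i k
  · intro t ht
    simp only [dif_pos ht]
    exact (key t ht).choose_spec.2.2.1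
  · intro t ht z hz v
    simp only [dif_pos ht]
    exact (key t ht).choose_spec.2.2.2 z hz v

end TB6

end F10T
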