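import Pool.Agent.Lib.MP_f10cd3_gt.T.Defs

/-! Rows TA: the subdivision of a combinatorial surface. -/

set_option autoImplicit false

namespace F10T


open MPf10cd3 F10G F10S

variable {V : Type} [Fintype V] [DecidableEq V] {D : Finset (V × V × V)} {g : ℕ}

section TA1

/-- Row TA1. -/
theorem sub_rot (hD : IsCS D g) {x y z : Sym2 V} (h : SubR D x y z) : SubR D y z x := by
  obtain ⟨a, b, c, habc, h | h | h | h⟩ := h
  · exact ⟨a, b, c, habc, Or.inr (Or.inl ⟨h.2.1, h.2.2, h.1⟩)⟩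
  · exact ⟨a, b, c, habc, Or.inr (Or.inr (Or.inl ⟨h.2.1, h.2.2, h.1⟩))⟩
  · exact ⟨a, b, c, habc, Or.inl ⟨h.2.1, h.2.2, h.1⟩⟩
  · exact ⟨b, c, a, hD.rot _ _ _ habc, Or.inr (Or.inr (Or.inr ⟨h.2.1, h.2.2, h.1⟩))⟩

/-- Row TA1. -/
theorem sub_ne (hD : IsCS D g) {x y z : Sym2 V} (h : SubR D x y z) : x ≠ y := by
  obtain ⟨a, b, c, habc, h | h | h | h⟩ := h
  · rw [h.1, h.2.1]
    intro e
    rw [Sym2.eq_iff] at e
    have := hD.ne _ _ _ habc
    tauto
  · rw [h.1, h.2.1]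
    intro e
    rw [Sym2.eq_iff] at e
    have h1 := hD.ne _ _ _ (hD.rot _ _ _ habc)
    have h2 := hD.ne _ _ _ habc
    rcases e with e | e
    · exact h1 e.2
    · exact h2 e.2.symm
  · rw [h.1, h.2.1]
    intro e
    rw [Sym2.eq_iff] at e
    have h1 := hD.ne _ _ _ (hD.rot _ _ _ (hD.rot _ _ _ habc))
    tauto
  · rw [h.1, h.2.1]
    intro e
    rw [Sym2.eq_iff] at e
    have h1 := hD.ne _ _ _ habc
    have h2 := hD.ne _ _ _ (hD.rot _ _ _ (hD.rot _ _ _ habc))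
    rcases e with e | e
    · exact h1 e.1
    · exact h2 e.1.symm

end TA1

section TA2

private theorem TA2_ne (hD : IsCS D g) {a b c : V} (h : (a, b, c) ∈ D) : a ≠ b ∧ b ≠ c ∧ c ≠ a :=
  ⟨hD.ne _ _ _ h, hD.ne _ _ _ (hD.rot _ _ _ h), hD.ne _ _ _ (hD.rot _ _ _ (hD.rot _ _ _ h))⟩

/-- Row TA2. -/
theorem sub_uniq (hD : IsCS D g) {x y z w : Sym2 V} (h : SubR D x y z) (h' : SubR D x y w) :
    z = w := by
  obtain ⟨a, b, c, h1, hx⟩ := h
  obtain ⟨a', b', c', h2, hx'⟩ := h'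
  obtain ⟨n1, n2, n3⟩ := TA2_ne hD h1
  obtain ⟨m1, m2, m3⟩ := TA2_ne hD h2
  have hu := hD.uniq
  have hs := hD.simp
  have hr := hD.rot
  rcases hx with ⟨rfl, rfl, rfl⟩ | ⟨rfl, rfl, rfl⟩ | ⟨rfl, rfl, rfl⟩ | ⟨rfl, rfl, rfl⟩ <;>
  rcases hx' with ⟨e1, e2, rfl⟩ | ⟨e1, e2, rfl⟩ | ⟨e1, e2, rfl⟩ | ⟨e1, e2, rfl⟩ <;>
  rcases Sym2.eq_iff.1 e1 with ⟨p1, p2⟩ | ⟨p1, p2⟩ <;>
  rcases Sym2.eq_iff.1 e2 with ⟨q1, q2⟩ | ⟨q1, q2⟩ <;>
  first
  | (exfalso; grind)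
  | grind

end TA2

section TA3

private theorem TA3_facts (hD : IsCS D g) {a b c : V} (h : (a, b, c) ∈ D) :
    a ≠ b ∧ b ≠ c ∧ c ≠ a ∧ (b, c, a) ∈ D ∧ (c, a, b) ∈ D ∧ (b, a, c) ∉ D ∧ (c, b, a) ∉ D ∧
      (a, c, b) ∉ D := by
  have h1 := hD.rot _ _ _ h
  have h2 := hD.rot _ _ _ h1
  exact ⟨hD.ne _ _ _ h, hD.ne _ _ _ h1, hD.ne _ _ _ h2, h1, h2, hD.simp _ _ _ h,
    hD.simp _ _ _ h1, hD.simp _ _ _ h2⟩

/-- Row TA3. -/
theorem sub_opp (hD : IsCS D g) {x y z : Sym2 V} (h : SubR D x y z) : ∃ w, SubR D y x w := by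
  obtain ⟨a, b, c, h, H⟩ := h
  obtain ⟨-, -, -, h1, h2, -, -, -⟩ := TA3_facts hD h
  rcases H with ⟨rfl, rfl, rfl⟩ | ⟨rfl, rfl, rfl⟩ | ⟨rfl, rfl, rfl⟩ | ⟨rfl, rfl, rfl⟩
  · obtain ⟨d, hd⟩ := hD.opp _ _ _ h
    exact ⟨s(a, d), a, d, b, hD.rot _ _ _ hd, Or.inr (Or.inr (Or.inl ⟨rfl, rfl, rfl⟩))⟩
  · exact ⟨s(b, c), c, a, b, h2, Or.inr (Or.inr (Or.inr ⟨Sym2.eq_swap, rfl, rfl⟩))⟩
  · obtain ⟨d, hd⟩ := hD.opp _ _ _ h2
    exact ⟨s(a, d), a, c, d, hd, Or.inl ⟨rfl, rfl, rfl⟩⟩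
  · exact ⟨s(b, b), b, c, a, h1, Or.inr (Or.inl ⟨rfl, Sym2.eq_swap, rfl⟩)⟩

private theorem TA3_swap (hD : IsCS D g) {a b c a' b' c' : V} (h : (a, b, c) ∈ D)
    (h' : (a', b', c') ∈ D) (h1 : a = a') (h2 : s(a, b) = s(a', c')) (h3 : s(a, c) = s(a', b')) :
    False := by
  obtain ⟨-, -, -, -, -, -, -, n⟩ := TA3_facts hD h
  subst h1
  have e1 : b = c' := by
    have := Sym2.eq_iff.1 h2
    grind
  have e2 : c = b' := by
    have := Sym2.eq_iff.1 h3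
    grind
  subst e1
  subst e2
  exact n h'

/-- Row TA3. -/
theorem sub_simp (hD : IsCS D g) {x y z : Sym2 V} (h : SubR D x y z) : ¬ SubR D y x z := by
  rintro ⟨a', b', c', h', H'⟩
  obtain ⟨a, b, c, h, H⟩ := h
  obtain ⟨n1, n2, n3, -, -, -, n4, -⟩ := TA3_facts hD h
  obtain ⟨m1, m2, m3, -, -, -, -, -⟩ := TA3_facts hD h'
  rcases H with ⟨rfl, rfl, rfl⟩ | ⟨rfl, rfl, rfl⟩ | ⟨rfl, rfl, rfl⟩ | ⟨rfl, rfl, rfl⟩ <;>
    rcases H' with ⟨h1, h2, h3⟩ | ⟨h1, h2, h3⟩ | ⟨h1, h2, h3⟩ | ⟨h1, h2, h3⟩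
  · simp only [Sym2.eq_iff] at h1 h2 h3
    grind
  · simp only [Sym2.eq_iff] at h1 h2 h3
    grind
  · exact TA3_swap hD h h' (by simpa using h2) h1 h3
  · simp only [Sym2.eq_iff] at h1 h2 h3
    grind
  · simp only [Sym2.eq_iff] at h1 h2 h3
    grind
  · exact TA3_swap hD h h' (by simpa using h3) h2 h1
  · simp only [Sym2.eq_iff] at h1 h2 h3
    grind
  · simp only [Sym2.eq_iff] at h1 h2 h3
    grind
  · exact TA3_swap hD h h' (by simpa using h1) h3 h2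
  · simp only [Sym2.eq_iff] at h1 h2 h3
    grind
  · simp only [Sym2.eq_iff] at h1 h2 h3
    grind
  · simp only [Sym2.eq_iff] at h1 h2 h3
    grind
  · simp only [Sym2.eq_iff] at h1 h2 h3
    grind
  · simp only [Sym2.eq_iff] at h1 h2 h3
    grind
  · simp only [Sym2.eq_iff] at h1 h2 h3
    grind
  · simp only [Sym2.eq_iff] at h1 h2 h3
    grind

end TA3

section TA4

private theorem TA4_six (hD : IsCS D g) {a b c d : V} (h1 : (a, b, c) ∈ D) (h2 : (b, a, d) ∈ D)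
    {y z : Sym2 V} (h : SubR D s(a, b) y z) :
    y = s(b, b) ∨ y = s(b, c) ∨ y = s(c, a) ∨ y = s(a, a) ∨ y = s(a, d) ∨ y = s(d, b) := by
  have hab := hD.ne _ _ _ h1
  obtain ⟨p, q, r, hp, h | h | h | h⟩ := h
  · have e := h.1
    rw [Sym2.eq_iff] at e
    rcases e with e | e
    · exact absurd (e.1.trans e.2.symm) hab
    · exact absurd (e.1.trans e.2.symm) hab
  · have e := h.1
    rw [Sym2.eq_iff] at e
    rcases e with ⟨rfl, rfl⟩ | ⟨rfl, rfl⟩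
    · have := hD.uniq _ _ _ _ h1 hp
      subst this
      right; right; left
      rw [h.2.1, Sym2.eq_swap]
    · have := hD.uniq _ _ _ _ h2 hp
      subst this
      right; right; right; right; right
      rw [h.2.1, Sym2.eq_swap]
  · have e := h.1
    rw [Sym2.eq_iff] at e
    rcases e with ⟨rfl, rfl⟩ | ⟨rfl, rfl⟩
    · right; right; right; left
      exact h.2.1
    · left
      exact h.2.1
  · have e := h.1
    rw [Sym2.eq_iff] at e
    rcases e with ⟨rfl, rfl⟩ | ⟨rfl, rfl⟩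
    · have := hD.uniq _ _ _ _ h1 hp
      subst this
      right; left
      exact h.2.1
    · have := hD.uniq _ _ _ _ h2 hp
      subst this
      right; right; right; right; left
      exact h.2.1

private theorem TA4_edge (hD : IsCS D g) {a b c d : V} (h1 : (a, b, c) ∈ D) (h2 : (b, a, d) ∈ D)
    {y z y' z' : Sym2 V} (h : SubR D s(a, b) y z) (h' : SubR D s(a, b) y' z') :
    Relation.ReflTransGen (fun u v => SubR D s(a, b) u v) y y' := by
  have r1 : SubR D s(a, b) s(b, b) s(b, c) :=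
    ⟨b, c, a, hD.rot _ _ _ h1, Or.inr (Or.inr (Or.inl ⟨Sym2.eq_swap, rfl, rfl⟩))⟩
  have r2 : SubR D s(a, b) s(b, c) s(c, a) :=
    ⟨a, b, c, h1, Or.inr (Or.inr (Or.inr ⟨rfl, rfl, rfl⟩))⟩
  have r3 : SubR D s(a, b) s(c, a) s(a, a) :=
    ⟨a, b, c, h1, Or.inr (Or.inl ⟨rfl, Sym2.eq_swap, rfl⟩)⟩
  have r4 : SubR D s(a, b) s(a, a) s(a, d) :=
    ⟨a, d, b, hD.rot _ _ _ h2, Or.inr (Or.inr (Or.inl ⟨rfl, rfl, rfl⟩))⟩
  have r5 : SubR D s(a, b) s(a, d) s(d, b) :=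
    ⟨b, a, d, h2, Or.inr (Or.inr (Or.inr ⟨Sym2.eq_swap, rfl, rfl⟩))⟩
  have r6 : SubR D s(a, b) s(d, b) s(b, b) :=
    ⟨b, a, d, h2, Or.inr (Or.inl ⟨Sym2.eq_swap, Sym2.eq_swap, rfl⟩)⟩
  have t0 : Relation.ReflTransGen (fun u v => SubR D s(a, b) u v) s(b, b) s(b, b) := .refl
  have t1 := t0.tail r1
  have t2 := t1.tail r2
  have t3 := t2.tail r3
  have t4 := t3.tail r4
  have t5 := t4.tail r5
  have u5 := t0.head r6
  have u4 := u5.head r5
  have u3 := u4.head r4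
  have u2 := u3.head r3
  have u1 := u2.head r2
  have hy : Relation.ReflTransGen (fun u v => SubR D s(a, b) u v) y s(b, b) := by
    rcases TA4_six hD h1 h2 h with rfl | rfl | rfl | rfl | rfl | rfl
    · exact t0
    · exact u1
    · exact u2
    · exact u3
    · exact u4
    · exact u5
  refine hy.trans ?_
  rcases TA4_six hD h1 h2 h' with rfl | rfl | rfl | rfl | rfl | rfl
  · exact t0
  · exact t1
  · exact t2
  · exact t3
  · exact t4
  · exact t5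

private theorem TA4_diag (hD : IsCS D g) {a : V} {y z : Sym2 V} (h : SubR D s(a, a) y z) :
    ∃ b c, (a, b, c) ∈ D ∧ y = s(a, b) := by
  obtain ⟨p, q, r, hp, h | h | h | h⟩ := h
  · have e := h.1
    rw [Sym2.eq_iff] at e
    have hap : a = p := by rcases e with e | e <;> exact e.1
    subst hap
    exact ⟨q, r, hp, h.2.1⟩
  · have e := h.1
    rw [Sym2.eq_iff] at e
    have hpq : p = q := by
      rcases e with e | e
      · exact e.1.symm.trans e.2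
      · exact e.2.symm.trans e.1
    exact absurd hpq (hD.ne _ _ _ hp)
  · have e := h.1
    rw [Sym2.eq_iff] at e
    have hpr : r = p := by
      rcases e with e | e
      · exact e.2.symm.trans e.1
      · exact e.1.symm.trans e.2
    exact absurd hpr (hD.ne _ _ _ (hD.rot _ _ _ (hD.rot _ _ _ hp)))
  · have e := h.1
    rw [Sym2.eq_iff] at e
    have hpq : p = q := by
      rcases e with e | e
      · exact e.1.symm.trans e.2
      · exact e.2.symm.trans e.1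
    exact absurd hpq (hD.ne _ _ _ hp)

/-- Row TA4. at the vertex `s(a, a)` the link of `a`, at the midpoint `s(a, b)` of an edge with
`(a, b, c), (b, a, d) ∈ D` the cycle `bb → bc → ca → aa → ad → db → bb` -/
theorem sub_link (hD : IsCS D g) {x y y' : Sym2 V} (h : ∃ z, SubR D x y z)
    (h' : ∃ z, SubR D x y' z) : Relation.ReflTransGen (fun u v => SubR D x u v) y y' := by
  obtain ⟨z, h⟩ := h
  obtain ⟨z', h'⟩ := h'
  have hx : (∃ a, x = s(a, a)) ∨ ∃ a b c, (a, b, c) ∈ D ∧ x = s(a, b) := by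
    obtain ⟨a, b, c, habc, h | h | h | h⟩ := h
    · exact Or.inl ⟨a, h.1⟩
    · exact Or.inr ⟨a, b, c, habc, h.1⟩
    · refine Or.inr ⟨c, a, b, hD.rot _ _ _ (hD.rot _ _ _ habc), ?_⟩
      rw [h.1, Sym2.eq_swap]
    · exact Or.inr ⟨a, b, c, habc, h.1⟩
  rcases hx with ⟨a, rfl⟩ | ⟨a, b, c, habc, rfl⟩
  · obtain ⟨b, c, hb, rfl⟩ := TA4_diag hD h
    obtain ⟨b', c', hb', rfl⟩ := TA4_diag hD h'
    have hl := hD.link a b b' ⟨c, hb⟩ ⟨c', hb'⟩
    clear hb hb' h h'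
    induction hl with
    | refl => exact Relation.ReflTransGen.refl
    | tail _ huv ih => exact ih.tail ⟨a, _, _, huv, Or.inl ⟨rfl, rfl, rfl⟩⟩
  · obtain ⟨d, hd⟩ := hD.opp _ _ _ habc
    exact TA4_edge hD habc hd h h'

end TA4

section TA5

/-- Row TA5. -/
theorem sub_vert (hD : IsCS D g) {x : Sym2 V} (h : IsSV D x) : ∃ y z, SubR D x y z := by
  rcases h with ⟨a, rfl⟩ | ⟨a, b, c, hm, rfl⟩
  · obtain ⟨b, c, hm⟩ := hD.vert a
    exact ⟨s(a, b), s(a, c), a, b, c, hm, Or.inl ⟨rfl, rfl, rfl⟩⟩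
  · exact ⟨s(a, c), s(a, a), a, b, c, hm, Or.inr (Or.inl ⟨rfl, rfl, rfl⟩)⟩

private theorem TA5_out {a b c : V} (hm : (a, b, c) ∈ D) :
    Relation.ReflTransGen (fun u v => ∃ w, SubR D u v w) s(a, a) s(a, b) :=
  Relation.ReflTransGen.single ⟨s(a, c), a, b, c, hm, Or.inl ⟨rfl, rfl, rfl⟩⟩

private theorem TA5_in {a b c : V} (hm : (a, b, c) ∈ D) :
    Relation.ReflTransGen (fun u v => ∃ w, SubR D u v w) s(a, b) s(a, a) :=
  (Relation.ReflTransGen.single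
    ⟨s(a, a), a, b, c, hm, Or.inr (Or.inl ⟨rfl, rfl, rfl⟩)⟩ :
      Relation.ReflTransGen (fun u v => ∃ w, SubR D u v w) s(a, b) s(a, c)).tail
    ⟨s(a, b), a, b, c, hm, Or.inr (Or.inr (Or.inl ⟨rfl, rfl, rfl⟩))⟩

private theorem TA5_diag (hD : IsCS D g) {a b : V}
    (h : Relation.ReflTransGen (fun u v => ∃ c, (u, v, c) ∈ D) a b) :
    Relation.ReflTransGen (fun u v => ∃ w, SubR D u v w) s(a, a) s(b, b) := by
  induction h with
  | refl => exact Relation.ReflTransGen.refl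
  | @tail u v _ huv ih =>
    obtain ⟨c, hm⟩ := huv
    obtain ⟨d, hm'⟩ := hD.opp u v c hm
    refine ih.trans ((TA5_out hm).trans ?_)
    have h1 := TA5_in hm'
    rwa [Sym2.eq_swap] at h1

/-- Row TA5. -/
theorem sub_conn (hD : IsCS D g) {x y : Sym2 V} (h : IsSV D x) (h' : IsSV D y) :
    Relation.ReflTransGen (fun u v => ∃ w, SubR D u v w) x y := by
  have h1 : ∃ a, Relation.ReflTransGen (fun u v => ∃ w, SubR D u v w) x s(a, a) := by
    rcases h with ⟨a, rfl⟩ | ⟨a, b, c, hm, rfl⟩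
    · exact ⟨a, Relation.ReflTransGen.refl⟩
    · exact ⟨a, TA5_in hm⟩
  have h2 : ∃ a, Relation.ReflTransGen (fun u v => ∃ w, SubR D u v w) s(a, a) y := by
    rcases h' with ⟨a, rfl⟩ | ⟨a, b, c, hm, rfl⟩
    · exact ⟨a, Relation.ReflTransGen.refl⟩
    · exact ⟨a, TA5_out hm⟩
  obtain ⟨a, ha⟩ := h1
  obtain ⟨b, hb⟩ := h2
  exact ha.trans ((TA5_diag hD (hD.conn a b)).trans hb)

end TA5

section TX

/-- Row TA1. -/
theorem sub_isSV {x y z : Sym2 V} (hD : IsCS D g) (h : SubR D x y z) :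
    IsSV D x ∧ IsSV D y ∧ IsSV D z := by
  obtain ⟨a, b, c, hm, h⟩ := h
  have h1 : IsSV D s(a, a) := Or.inl ⟨a, rfl⟩
  have h2 : IsSV D s(a, b) := Or.inr ⟨a, b, c, hm, rfl⟩
  have hm2 := hD.rot _ _ _ hm
  have h3 : IsSV D s(b, c) := Or.inr ⟨b, c, a, hm2, rfl⟩
  have hm3 := hD.rot _ _ _ hm2
  have h4 : IsSV D s(c, a) := Or.inr ⟨c, a, b, hm3, rfl⟩
  have h5 : IsSV D s(a, c) := by
    rw [Sym2.eq_swap]
    exact h4
  rcases h with ⟨rfl, rfl, rfl⟩ | ⟨rfl, rfl, rfl⟩ | ⟨rfl, rfl, rfl⟩ | ⟨rfl, rfl, rfl⟩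
  · exact ⟨h1, h2, h5⟩
  · exact ⟨h2, h5, h1⟩
  · exact ⟨h5, h1, h2⟩
  · exact ⟨h2, h3, h4⟩

end TX

section TA6

private theorem TA6_sv (hD : IsCS D g) {a b c : V} (h : (a, b, c) ∈ D) :
    IsSV D s(a, a) ∧ IsSV D s(a, b) ∧ IsSV D s(a, c) ∧ IsSV D s(b, c) ∧ IsSV D s(c, a) := by
  have h1 := hD.rot _ _ _ h
  have h2 := hD.rot _ _ _ h1
  exact ⟨Or.inl ⟨a, rfl⟩, Or.inr ⟨a, b, c, h, rfl⟩, Or.inr ⟨c, a, b, h2, Sym2.eq_swap⟩,
    Or.inr ⟨b, c, a, h1, rfl⟩, Or.inr ⟨c, a, b, h2, rfl⟩⟩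

private def TA6_f (p : (V × V × V) × Fin 4) : Sym2 V × Sym2 V × Sym2 V :=
  match p with
  | ((a, b, c), 0) => (s(a, a), s(a, b), s(a, c))
  | ((a, b, c), 1) => (s(a, b), s(a, c), s(a, a))
  | ((a, b, c), 2) => (s(a, c), s(a, a), s(a, b))
  | ((a, b, c), 3) => (s(a, b), s(b, c), s(c, a))

private theorem TA6_inj (hD : IsCS D g) :
    Set.InjOn (TA6_f (V := V)) (D ×ˢ (Finset.univ : Finset (Fin 4)) : Finset _) := by
  rintro ⟨⟨a, b, c⟩, i⟩ h ⟨⟨a', b', c'⟩, i'⟩ h' heq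
  rw [Finset.mem_coe, Finset.mem_product] at h h'
  have m := h.1
  have m' := h'.1
  simp only at m m'
  have n1 := hD.ne _ _ _ m
  have n2 := hD.ne _ _ _ (hD.rot _ _ _ m)
  have n3 := hD.ne _ _ _ (hD.rot _ _ _ (hD.rot _ _ _ m))
  have n1' := hD.ne _ _ _ m'
  have n2' := hD.ne _ _ _ (hD.rot _ _ _ m')
  have n3' := hD.ne _ _ _ (hD.rot _ _ _ (hD.rot _ _ _ m'))
  clear h h' m m'
  fin_cases i <;> fin_cases i' <;> simp only [TA6_f, Prod.mk.injEq, Sym2.eq_iff] at heq <;> grind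

/-- Row TA6. every dart of `D` gives four darts of `subD D` -/
theorem card_subD (hD : IsCS D g) : (subD D).card = 4 * D.card := by
  classical
  let ι : SV D × SV D × SV D → Sym2 V × Sym2 V × Sym2 V := fun p => (p.1.1, p.2.1.1, p.2.2.1)
  have hι : Function.Injective ι := by
    rintro ⟨x, y, z⟩ ⟨x', y', z'⟩ h
    simp only [ι, Prod.mk.injEq] at h
    obtain ⟨h1, h2, h3⟩ := h
    have e1 : x = x' := Subtype.ext h1
    have e2 : y = y' := Subtype.ext h2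
    have e3 : z = z' := Subtype.ext h3
    rw [e1, e2, e3]
  have h1 : (subD D).image ι = (D ×ˢ (Finset.univ : Finset (Fin 4))).image TA6_f := by
    ext ⟨x, y, z⟩
    rw [Finset.mem_image, Finset.mem_image]
    constructor
    · rintro ⟨⟨x', y', z'⟩, hm, he⟩
      rw [mem_subD] at hm
      simp only [ι, Prod.mk.injEq] at he
      obtain ⟨rfl, rfl, rfl⟩ := he
      obtain ⟨a, b, c, habc, h | h | h | h⟩ := hm
      · exact ⟨((a, b, c), 0), Finset.mem_product.2 ⟨habc, Finset.mem_univ _⟩, by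
          rw [h.1, h.2.1, h.2.2]; rfl⟩
      · exact ⟨((a, b, c), 1), Finset.mem_product.2 ⟨habc, Finset.mem_univ _⟩, by
          rw [h.1, h.2.1, h.2.2]; rfl⟩
      · exact ⟨((a, b, c), 2), Finset.mem_product.2 ⟨habc, Finset.mem_univ _⟩, by
          rw [h.1, h.2.1, h.2.2]; rfl⟩
      · exact ⟨((a, b, c), 3), Finset.mem_product.2 ⟨habc, Finset.mem_univ _⟩, by
          rw [h.1, h.2.1, h.2.2]; rfl⟩
    · rintro ⟨⟨⟨a, b, c⟩, i⟩, hm, he⟩
      have m := (Finset.mem_product.1 hm).1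
      simp only at m
      obtain ⟨s1, s2, s3, s4, s5⟩ := TA6_sv hD m
      have key : ∀ x y z : Sym2 V, IsSV D x → IsSV D y → IsSV D z → SubR D x y z →
          ∃ p ∈ subD D, ι p = (x, y, z) := fun x y z hx hy hz h =>
        ⟨(⟨x, hx⟩, ⟨y, hy⟩, ⟨z, hz⟩), mem_subD.2 h, rfl⟩
      rw [← he]
      fin_cases i
      · exact key _ _ _ s1 s2 s3 ⟨a, b, c, m, Or.inl ⟨rfl, rfl, rfl⟩⟩
      · exact key _ _ _ s2 s3 s1 ⟨a, b, c, m, Or.inr (Or.inl ⟨rfl, rfl, rfl⟩)⟩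
      · exact key _ _ _ s3 s1 s2 ⟨a, b, c, m, Or.inr (Or.inr (Or.inl ⟨rfl, rfl, rfl⟩))⟩
      · exact key _ _ _ s2 s4 s5 ⟨a, b, c, m, Or.inr (Or.inr (Or.inr ⟨rfl, rfl, rfl⟩))⟩
  rw [← Finset.card_image_of_injective _ hι, h1, Finset.card_image_of_injOn (TA6_inj hD),
    Finset.card_product, Finset.card_univ, Fintype.card_fin, mul_comm]

end TA6

section TA7

private theorem TA7_fiber (hD : IsCS D g) {a b c : V} (h : (a, b, c) ∈ D) :
    (D.filter fun p => s(p.1, p.2.1) = s(a, b)).card = 2 := by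
  classical
  obtain ⟨d, hd⟩ := hD.opp a b c h
  have hab := hD.ne a b c h
  have : (D.filter fun p => s(p.1, p.2.1) = s(a, b)) = {(a, b, c), (b, a, d)} := by
    ext ⟨x, y, z⟩
    simp only [Finset.mem_filter, Finset.mem_insert, Finset.mem_singleton, Prod.mk.injEq,
      Sym2.eq_iff]
    constructor
    · rintro ⟨hm, ⟨rfl, rfl⟩ | ⟨rfl, rfl⟩⟩
      · exact Or.inl ⟨rfl, rfl, hD.uniq _ _ _ _ hm h⟩
      · exact Or.inr ⟨rfl, rfl, hD.uniq _ _ _ _ hm hd⟩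
    · rintro (⟨rfl, rfl, rfl⟩ | ⟨rfl, rfl, rfl⟩)
      · exact ⟨h, Or.inl ⟨rfl, rfl⟩⟩
      · exact ⟨hd, Or.inr ⟨rfl, rfl⟩⟩
  rw [this]
  refine Finset.card_pair ?_
  intro e
  exact hab (congrArg Prod.fst e)

/-- Row TA7. the map `(a, b, c) ↦ s(a, b)` from `D` to the edges is two to one -/
theorem card_SV (hD : IsCS D g) : 2 * Fintype.card (SV D) = 2 * Fintype.card V + D.card := by
  classical
  have h1 : Fintype.card (SV D) = (Finset.univ.filter fun e : Sym2 V => IsSV D e).card :=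
    (@Fintype.card_congr (SV D) {e : Sym2 V // IsSV D e} _ _ (Equiv.refl _)).trans
      (Fintype.card_subtype (IsSV D))
  set E : Finset (Sym2 V) := D.image fun p => s(p.1, p.2.1) with hE
  have h2 : (Finset.univ.filter fun e : Sym2 V => IsSV D e) =
      (Finset.univ.image fun a : V => s(a, a)) ∪ E := by
    ext e
    simp only [Finset.mem_filter, Finset.mem_univ, true_and, Finset.mem_union, Finset.mem_image,
      hE]
    constructor
    · rintro (⟨a, rfl⟩ | ⟨a, b, c, h, rfl⟩)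
      · exact Or.inl ⟨a, rfl⟩
      · exact Or.inr ⟨(a, b, c), h, rfl⟩
    · rintro (⟨a, rfl⟩ | ⟨⟨a, b, c⟩, h, rfl⟩)
      · exact Or.inl ⟨a, rfl⟩
      · exact Or.inr ⟨a, b, c, h, rfl⟩
  have h3 : Disjoint (Finset.univ.image fun a : V => s(a, a)) E := by
    rw [Finset.disjoint_left]
    intro e he he'
    obtain ⟨a, _, rfl⟩ := Finset.mem_image.1 he
    obtain ⟨⟨x, y, z⟩, hm, hxy⟩ := Finset.mem_image.1 he'
    have hne := hD.ne x y z hm
    have hxy' : s(x, y) = s(a, a) := hxy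
    rw [Sym2.eq_iff] at hxy'
    rcases hxy' with ⟨h, h'⟩ | ⟨h, h'⟩
    · exact hne (h.trans h'.symm)
    · exact hne (h.trans h'.symm)
  have h4 : (Finset.univ.image fun a : V => s(a, a)).card = Fintype.card V := by
    rw [Finset.card_image_of_injective, Finset.card_univ]
    intro a b hab
    have hab' : s(a, a) = s(b, b) := hab
    rw [Sym2.eq_iff] at hab'
    rcases hab' with h | h
    · exact h.1
    · exact h.1
  have h5 : D.card = ∑ e ∈ E, (D.filter fun p => s(p.1, p.2.1) = e).card :=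
    Finset.card_eq_sum_card_fiberwise fun p hp => Finset.mem_image_of_mem _ hp
  have h6 : ∑ e ∈ E, (D.filter fun p => s(p.1, p.2.1) = e).card = ∑ _e ∈ E, 2 := by
    refine Finset.sum_congr rfl fun e he => ?_
    obtain ⟨⟨a, b, c⟩, hm, rfl⟩ := Finset.mem_image.1 he
    exact TA7_fiber hD hm
  rw [h6, Finset.sum_const, smul_eq_mul] at h5
  rw [h1, h2, Finset.card_union_of_disjoint h3, h4]
  omega

end TA7

section TA8

private theorem TA8_lift {α : Type} {P : α → Prop} {R : α → α → Prop}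
    (hR : ∀ u v, R u v → P u) {x y : α} (h : Relation.ReflTransGen R x y) :
    ∀ (hx : P x) (hy : P y), Relation.ReflTransGen (fun u v : {a : α // P a} => R u.1 v.1)
      (Subtype.mk x hx) (Subtype.mk y hy) := by
  induction h with
  | refl => intro hx hy; exact Relation.ReflTransGen.refl
  | @tail b c _ hbc ih =>
    intro hx hy
    exact (ih hx (hR b c hbc)).tail hbc

/-- Row TA8. assembly (lift `sub_link`, `sub_conn` to the subtype with `sub_isSV`) -/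
theorem isCS_sub (hD : IsCS D g) : IsCS (subD D) g where
  rot a b c h := mem_subD.2 (sub_rot hD (mem_subD.1 h))
  ne a b c h := by
    rintro rfl
    exact sub_ne hD (mem_subD.1 h) rfl
  uniq a b c d h h' := Subtype.ext (sub_uniq hD (mem_subD.1 h) (mem_subD.1 h'))
  opp a b c h := by
    obtain ⟨w, hw⟩ := sub_opp hD (mem_subD.1 h)
    exact ⟨(Subtype.mk w (sub_isSV hD hw).2.2 : SV D), mem_subD.2 hw⟩
  simp a b c h h' := sub_simp hD (mem_subD.1 h) (mem_subD.1 h')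
  vert a := by
    obtain ⟨y, z, h⟩ := sub_vert hD a.2
    exact ⟨(Subtype.mk y (sub_isSV hD h).2.1 : SV D), (Subtype.mk z (sub_isSV hD h).2.2 : SV D),
      mem_subD.2 h⟩
  link a b b' h h' := by
    obtain ⟨c, hc⟩ := h
    obtain ⟨c', hc'⟩ := h'
    have h1 := sub_link hD ⟨c.1, mem_subD.1 hc⟩ ⟨c'.1, mem_subD.1 hc'⟩
    have h2 := TA8_lift (P := IsSV D) (fun u v huv => (sub_isSV hD huv).2.1) h1 b.2 b'.2
    refine Relation.ReflTransGen.mono ?_ _ _ h2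
    intro u v huv
    exact (mem_subD (x := a) (y := u) (z := v)).2 huv
  conn a b := by
    have h1 := sub_conn hD a.2 b.2
    have h2 := TA8_lift (P := IsSV D) (fun u v huv => by
      obtain ⟨w, hw⟩ := huv
      exact (sub_isSV hD hw).1) h1 a.2 b.2
    refine Relation.ReflTransGen.mono ?_ _ _ h2
    intro u v huv
    obtain ⟨w, hw⟩ := huv
    exact ⟨(Subtype.mk w (sub_isSV hD hw).2.2 : SV D),
      (mem_subD (x := u) (y := v)).2 hw⟩
  euler := by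
    have h1 : ((subD D).card : ℚ) = 4 * D.card := by
      exact_mod_cast card_subD hD
    have h2 : 2 * (Fintype.card (SV D) : ℚ) = 2 * Fintype.card V + D.card := by
      exact_mod_cast card_SV hD
    have h3 := hD.euler
    rw [h1]
    linarith

end TA8

end F10T
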