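import Pool.Agent.Lib.MP_f10cd3_gt.S.Defs

/-!
# Subdivision of a smooth triangulation: definitions

Every triangle is divided into four by the midpoints of its edges.
-/

set_option autoImplicit false

namespace F10T

open MPf10cd3 F10G F10S
open scoped ContDiff

variable {V : Type} [Fintype V] [DecidableEq V]

/-- vertices of the subdivision: `s(a, a)` is the vertex `a`, `s(a, b)` is the midpoint of the
edge `a b` -/
def IsSV (D : Finset (V × V × V)) (e : Sym2 V) : Prop :=
  (∃ a, e = s(a, a)) ∨ ∃ a b c, (a, b, c) ∈ D ∧ e = s(a, b)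

def SV (D : Finset (V × V × V)) : Type := {e : Sym2 V // IsSV D e}

noncomputable instance (D : Finset (V × V × V)) : Fintype (SV D) := by
  classical
  unfold SV
  exact Fintype.ofFinite _

noncomputable instance (D : Finset (V × V × V)) : DecidableEq (SV D) := Classical.decEq _

/-- the positively oriented triangles of the subdivision: for `(a, b, c) ∈ D` the three rotations of
the triangle at the vertex `a`, and the triangle in the middle -/
def SubR (D : Finset (V × V × V)) (x y z : Sym2 V) : Prop :=
  ∃ a b c, (a, b, c) ∈ D ∧ ((x = s(a, a) ∧ y = s(a, b) ∧ z = s(a, c)) ∨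
    (x = s(a, b) ∧ y = s(a, c) ∧ z = s(a, a)) ∨ (x = s(a, c) ∧ y = s(a, a) ∧ z = s(a, b)) ∨
      (x = s(a, b) ∧ y = s(b, c) ∧ z = s(c, a)))

open Classical in
noncomputable def subD (D : Finset (V × V × V)) : Finset (SV D × SV D × SV D) :=
  Finset.univ.filter fun p => SubR D p.1.1 p.2.1.1 p.2.2.1

theorem mem_subD {D : Finset (V × V × V)} {x y z : SV D} :
    (x, y, z) ∈ subD D ↔ SubR D x.1 y.1 z.1 := by
  simp [subD]

/-- barycentric coordinates in the subdivision, as a function of the coordinates `x` -/
noncomputable def lamS (x : V → ℝ) : Sym2 V → ℝ :=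
  Sym2.lift ⟨fun a b => if a = b then max 0 (2 * x a - 1) else
    max 0 (min (min (2 * x a) (2 * x b)) (2 * (x a + x b) - 1)), by
      intro a b
      by_cases h : a = b
      · subst h; rfl
      · beta_reduce
        rw [if_neg h, if_neg (Ne.symm h), min_comm (2 * x a), add_comm (x a)]⟩

theorem lamS_diag (x : V → ℝ) (a : V) : lamS x s(a, a) = max 0 (2 * x a - 1) := by
  simp [lamS]

theorem lamS_edge (x : V → ℝ) {a b : V} (h : a ≠ b) :
    lamS x s(a, b) = max 0 (min (min (2 * x a) (2 * x b)) (2 * (x a + x b) - 1)) := by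
  simp [lamS, h]

/-- `x` are the barycentric coordinates of a point of the realisation of `D` -/
def IsBary (D : Finset (V × V × V)) (x : V → ℝ) : Prop :=
  (∀ v, 0 ≤ x v) ∧ ∑ v, x v = 1 ∧ ∃ a b c, (a, b, c) ∈ D ∧ ∀ v, x v ≠ 0 → v = a ∨ v = b ∨ v = c

/-- a homeomorphism of `M` with the geometric realisation of `D` -/
structure PreTri {V : Type} [Fintype V] [DecidableEq V] (D : Finset (V × V × V)) (M : Type)
    [MetricSpace M] where
  lam : M → V → ℝ
  cont : ∀ v, Continuous fun y => lam y v
  bary : ∀ y, IsBary D (lam y)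
  surj : ∀ w : V → ℝ, IsBary D w → ∃ y, lam y = w
  inj : Function.Injective lam

/-- the point of the plane with barycentric coordinates `1 - z.re - z.im`, `z.re`, `z.im` with
respect to the triangle `P` -/
noncomputable def aff (P : Fin 3 → ℂ) (z : ℂ) : ℂ :=
  P 0 + z.re * (P 1 - P 0) + z.im * (P 2 - P 0)

/-- the triangle `(a, b, c)` of the triangulation `τ` is the image of the triangle `P t` in `stdT`
under the parametrisation `q (π t)` of the triangle `π t` of the original triangulation (a set `D0`
of maps `stdT → M`); its edges have length `≤ L` -/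
structure IsPar {V : Type} [Fintype V] [DecidableEq V] {D : Finset (V × V × V)} {M : Type}
    [MetricSpace M] {J : Type} (q : J → ℂ → M) (τ : PreTri D M) (L : ℝ) (j : V × V × V → J)
    (P : V × V × V → Fin 3 → ℂ) : Prop where
  mem : ∀ t ∈ D, ∀ i, P t i ∈ stdT
  edge : ∀ t ∈ D, ∀ i k, ‖P t i - P t k‖ ≤ L
  pos : ∀ t ∈ D, 0 < ((starRingEnd ℂ) (P t 1 - P t 0) * (P t 2 - P t 0)).im
  lam : ∀ t ∈ D, ∀ z ∈ stdT, ∀ v, τ.lam (q (j t) (aff (P t) z)) v =
    (if v = t.1 then 1 - z.re - z.im else 0) + (if v = t.2.1 then z.re else 0) +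
      (if v = t.2.2 then z.im else 0)

end F10T
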